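import Mathlib

set_option autoImplicit false

open Polynomial

namespace Pool.Agent.MP1f45fc

/-- the seventh Chebyshev polynomial of the first kind, normalised so that
`P7 (z + z⁻¹) = z ^ 7 + z⁻¹ ^ 7` -/
def P7 {R : Type*} [CommRing R] (y : R) : R := y ^ 7 - 7 * y ^ 5 + 14 * y ^ 3 - 7 * y

/-- either the exceptional value `g` or a real number in `[-2, 2]` -/
def Good (g : ℝ) (y : ℂ) : Prop := y = (g : ℂ) ∨ ∃ t : ℝ, |t| ≤ 2 ∧ y = (t : ℂ)

theorem map_P7 {R S : Type*} [CommRing R] [CommRing S] (φ : R →+* S) (y : R) :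
    φ (P7 y) = P7 (φ y) := by
  have h7 : φ 7 = 7 := map_ofNat φ 7
  have h14 : φ 14 = 14 := map_ofNat φ 14
  simp [P7, h7, h14]

theorem P7_ofReal (t : ℝ) : P7 (t : ℂ) = ((P7 t : ℝ) : ℂ) := by
  simp [P7]

theorem P7_add_inv (z : ℝ) (hz : z ≠ 0) : P7 (z + z⁻¹) = z ^ 7 + (z ^ 7)⁻¹ := by
  unfold P7
  field_simp
  ring

theorem abs_P7_le (t : ℝ) (ht : |t| ≤ 2) : |P7 t| ≤ 2 := by
  have h1 : 4 - (P7 t) ^ 2 = (4 - t ^ 2) * (t ^ 6 - 5 * t ^ 4 + 6 * t ^ 2 - 1) ^ 2 := by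
    unfold P7
    ring
  have h2 : t ^ 2 ≤ 4 := by
    have := abs_le.1 ht
    nlinarith
  have h3 : (P7 t) ^ 2 ≤ 2 ^ 2 := by
    have : 0 ≤ (4 - t ^ 2) * (t ^ 6 - 5 * t ^ 4 + 6 * t ^ 2 - 1) ^ 2 := by
      apply mul_nonneg
      · linarith
      · positivity
    linarith
  exact abs_le_of_sq_le_sq h3 (by norm_num)

section bounds

variable {β : ℝ} (h1 : 1 < β) (h2 : β ≤ 5 / 4)

include h1 h2

theorem gamma_gt : 2 < β + β⁻¹ := by
  have h0 : 0 < β := by linarith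
  have : β + β⁻¹ - 2 = (β - 1) ^ 2 / β := by
    field_simp
    ring
  have h3 : 0 < (β - 1) ^ 2 / β := by
    apply div_pos _ h0
    have : 0 < β - 1 := by linarith
    positivity
  linarith

theorem gamma_lt : β + β⁻¹ < 5 / 2 := by
  have h0 : 0 < β := by linarith
  have : β⁻¹ < 1 := inv_lt_one_of_one_lt₀ h1
  linarith

theorem S7_lt : P7 (β + β⁻¹) < 5 := by
  have h0 : 0 < β := by linarith
  rw [P7_add_inv β h0.ne']
  have h7 : β ^ 7 ≤ (5 / 4) ^ 7 := by
    gcongr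
  have h7' : 1 < β ^ 7 := one_lt_pow₀ h1 (by norm_num)
  set s := β ^ 7 with hs
  have hs0 : 0 < s := by linarith
  have : s + s⁻¹ ≤ (5 / 4) ^ 7 + ((5 / 4) ^ 7)⁻¹ := by
    have h3 : (5 / 4 : ℝ) ^ 7 + ((5 / 4) ^ 7)⁻¹ - (s + s⁻¹)
        = ((5 / 4) ^ 7 - s) * ((5 / 4) ^ 7 * s - 1) / ((5 / 4) ^ 7 * s) := by
      field_simp
      ring
    have h4 : 0 ≤ ((5 / 4) ^ 7 - s) * ((5 / 4) ^ 7 * s - 1) / ((5 / 4) ^ 7 * s) := by
      apply div_nonneg
      · apply mul_nonneg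
        · linarith
        · nlinarith
      · positivity
    linarith
  have h5 : (5 / 4 : ℝ) ^ 7 + ((5 / 4) ^ 7)⁻¹ < 5 := by norm_num
  linarith

theorem gamma_lt_S7 : β + β⁻¹ < P7 (β + β⁻¹) := by
  have h0 : 0 < β := by linarith
  rw [P7_add_inv β h0.ne']
  have h7 : β < β ^ 7 := by
    calc β = β ^ 1 := (pow_one β).symm
      _ < β ^ 7 := pow_lt_pow_right₀ h1 (by norm_num)
  set s := β ^ 7 with hs
  have hs0 : 0 < s := by linarith
  have h3 : s + s⁻¹ - (β + β⁻¹) = (s - β) * (s * β - 1) / (s * β) := by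
    field_simp
    ring
  have h4 : 0 < (s - β) * (s * β - 1) / (s * β) := by
    apply div_pos
    · apply mul_pos
      · linarith
      · nlinarith
    · positivity
  linarith

theorem good_bound1 {y y' : ℂ} (hy : Good (β + β⁻¹) y) (hy' : Good (β + β⁻¹) y') :
    ‖P7 y - y'‖ < 7 := by
  have a1 := gamma_gt h1 h2
  have a2 := gamma_lt h1 h2
  have a3 := S7_lt h1 h2
  have a4 := gamma_lt_S7 h1 h2
  rcases hy with rfl | ⟨t, ht, rfl⟩
  · rcases hy' with rfl | ⟨t', ht', rfl⟩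
    · rw [P7_ofReal, ← Complex.ofReal_sub, Complex.norm_real, Real.norm_eq_abs, abs_lt]
      constructor <;> linarith
    · rw [P7_ofReal, ← Complex.ofReal_sub, Complex.norm_real, Real.norm_eq_abs, abs_lt]
      have := abs_le.1 ht'
      constructor <;> linarith
  · have b1 := abs_le.1 (abs_P7_le t ht)
    rcases hy' with rfl | ⟨t', ht', rfl⟩
    · rw [P7_ofReal, ← Complex.ofReal_sub, Complex.norm_real, Real.norm_eq_abs, abs_lt]
      constructor <;> linarith
    · rw [P7_ofReal, ← Complex.ofReal_sub, Complex.norm_real, Real.norm_eq_abs, abs_lt]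
      have := abs_le.1 ht'
      constructor <;> linarith

theorem good_bound2 {y y' : ℂ} (hy : Good (β + β⁻¹) y) (hy' : Good (β + β⁻¹) y') :
    ‖P7 y - P7 y'‖ < 7 := by
  have a1 := gamma_gt h1 h2
  have a2 := gamma_lt h1 h2
  have a3 := S7_lt h1 h2
  have a4 := gamma_lt_S7 h1 h2
  rcases hy with rfl | ⟨t, ht, rfl⟩
  · rcases hy' with rfl | ⟨t', ht', rfl⟩
    · simp
    · rw [P7_ofReal, P7_ofReal, ← Complex.ofReal_sub, Complex.norm_real, Real.norm_eq_abs, abs_lt]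
      have := abs_le.1 (abs_P7_le t' ht')
      constructor <;> linarith
  · have b1 := abs_le.1 (abs_P7_le t ht)
    rcases hy' with rfl | ⟨t', ht', rfl⟩
    · rw [P7_ofReal, P7_ofReal, ← Complex.ofReal_sub, Complex.norm_real, Real.norm_eq_abs, abs_lt]
      constructor <;> linarith
    · rw [P7_ofReal, P7_ofReal, ← Complex.ofReal_sub, Complex.norm_real, Real.norm_eq_abs, abs_lt]
      have := abs_le.1 (abs_P7_le t' ht')
      constructor <;> linarith

/-- `P7 γ` is not good. -/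
theorem S7_not_good : ¬ Good (β + β⁻¹) (P7 ((β + β⁻¹ : ℝ) : ℂ)) := by
  have a1 := gamma_gt h1 h2
  have a4 := gamma_lt_S7 h1 h2
  rw [P7_ofReal]
  rintro (h | ⟨t, ht, h⟩)
  · have := Complex.ofReal_injective h
    linarith
  · have := Complex.ofReal_injective h
    have := abs_le.1 ht
    linarith

/-- if `y` is good and `P7 y = P7 γ`, then `y = γ`. -/
theorem good_eq {y : ℂ} (hy : Good (β + β⁻¹) y) (h : P7 y = P7 ((β + β⁻¹ : ℝ) : ℂ)) :
    y = ((β + β⁻¹ : ℝ) : ℂ) := by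
  have a1 := gamma_gt h1 h2
  have a4 := gamma_lt_S7 h1 h2
  rcases hy with rfl | ⟨t, ht, rfl⟩
  · rfl
  · rw [P7_ofReal, P7_ofReal] at h
    have h3 := Complex.ofReal_injective h
    have := abs_le.1 (abs_P7_le t ht)
    linarith

end bounds

/-- Kronecker: an algebraic integer all of whose conjugates have modulus `< 1` is zero. -/
theorem eq_zero_of_house_lt {K : Type} [Field K] [NumberField K] (w : K) (hw : IsIntegral ℤ w)
    (h : ∀ φ : K →+* ℂ, ‖φ w‖ < 1) : w = 0 := by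
  by_contra hne
  obtain ⟨σ, hσ⟩ := NumberField.exists_conjugate_one_le_norm (K := K) (α := ⟨w, hw⟩)
    (by
      intro h0
      apply hne
      exact congrArg (fun a : NumberField.RingOfIntegers K => (a : K)) h0)
  exact absurd hσ (not_le.2 (h σ))

/-- For an integer polynomial `g`, `g ^ 7 = g (X ^ 7) + 7 h`. -/
theorem exists_frob (g : ℤ[X]) : ∃ h : ℤ[X], g ^ 7 = expand ℤ 7 g + 7 * h := by
  have : Fact (Nat.Prime 7) := ⟨by norm_num⟩
  have hz : (g ^ 7 - expand ℤ 7 g).map (Int.castRingHom (ZMod 7)) = 0 := by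
    rw [Polynomial.map_sub, Polynomial.map_pow, Polynomial.map_expand, ← ZMod.expand_card]
    simp
  have hdvd : (C (7 : ℤ)) ∣ (g ^ 7 - expand ℤ 7 g) := by
    rw [Polynomial.C_dvd_iff_dvd_coeff]
    intro i
    have := congrArg (fun q => q.coeff i) hz
    simp only [Polynomial.coeff_map, Polynomial.coeff_zero, eq_intCast] at this
    exact (ZMod.intCast_zmod_eq_zero_iff_dvd _ 7).1 this
  obtain ⟨h, hh⟩ := hdvd
  refine ⟨h, ?_⟩
  have : g ^ 7 = expand ℤ 7 g + (g ^ 7 - expand ℤ 7 g) := by ring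
  rw [this, hh]
  simp

theorem aeval_frob {R : Type*} [CommRing R] (g h : ℤ[X]) (hgh : g ^ 7 = expand ℤ 7 g + 7 * h)
    (u : R) : (aeval u g) ^ 7 = aeval (u ^ 7) g + 7 * aeval u h := by
  have := congrArg (fun q => aeval u q) hgh
  have h7 : aeval u (7 : ℤ[X]) = (7 : R) := map_ofNat (aeval u) 7
  simpa [Polynomial.expand_aeval, h7] using this

end Pool.Agent.MP1f45fc
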