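import Mathlib
import Pool.Agent.Lib.MP_1f45fc_nt.Cyclo

set_option autoImplicit false

open Polynomial

namespace Pool.Agent.MP1f45fc

/-- The hypotheses on `β` used below. -/
structure Hyp (β : ℝ) : Prop where
  one_lt : 1 < β
  le : β ≤ 5 / 4
  integral : IsIntegral ℤ β
  conj : ∀ z : ℂ, aeval z (minpoly ℤ β) = 0 → z ≠ (β : ℂ) → ‖z‖ ≤ 1

theorem map_aeval_int {K L : Type*} [CommRing K] [CommRing L] (ψ : K →+* L) (u : K) (g : ℤ[X]) :
    ψ (aeval u g) = aeval (ψ u) g :=
  (Polynomial.aeval_algHom_apply ψ.toIntAlgHom u g).symm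

theorem root_of_root {K : Type} [Field K] {β : ℝ} {y : K} {φ0 : K →+* ℂ} (hy : φ0 y = (β : ℂ))
    (φ : K →+* ℂ) : aeval (φ y) (minpoly ℤ β) = 0 := by
  have h0 : aeval (β : ℂ) (minpoly ℤ β) = 0 := by
    have := map_aeval_int (algebraMap ℝ ℂ) β (minpoly ℤ β)
    rw [minpoly.aeval, map_zero] at this
    exact this.symm
  have h1 : φ0 (aeval y (minpoly ℤ β)) = 0 := by
    rw [map_aeval_int, hy, h0]
  have h2 : aeval y (minpoly ℤ β) = 0 := by
    apply φ0.injective
    rw [h1, map_zero]
  rw [← map_aeval_int, h2, map_zero]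

section cyc

variable {m : ℕ} [NeZero m] {K : Type} [Field K] [NumberField K] [IsCyclotomicExtension {m} ℚ K]

theorem exists_poly {ζ : K} (hζ : IsPrimitiveRoot ζ m) {y : K} (hy : IsIntegral ℤ y) :
    ∃ g : ℤ[X], aeval ζ g = y := by
  have hcl := IsCyclotomicExtension.Rat.isIntegralClosure_adjoin_singleton (n := m) hζ
  obtain ⟨w, hw⟩ := hcl.isIntegral_iff.1 hy
  have h3 : ∀ a ∈ Algebra.adjoin ℤ {ζ}, ∃ g : ℤ[X], aeval ζ g = a := by
    intro a ha
    rw [Algebra.adjoin_singleton_eq_range_aeval] at ha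
    exact ha
  obtain ⟨g, hg⟩ := h3 w w.2
  exact ⟨g, hg.trans hw⟩

omit [NeZero m] [NumberField K] [IsCyclotomicExtension {m} ℚ K] in
theorem star_eq (hm : m ≠ 0) {ζ : K} (hζ : IsPrimitiveRoot ζ m) (φ : K →+* ℂ) (g : ℤ[X]) :
    (starRingEnd ℂ) (φ (aeval ζ g)) = φ (aeval ζ⁻¹ g) := by
  have h1 : ‖φ ζ‖ = 1 := by
    apply Complex.norm_eq_one_of_pow_eq_one (n := m) _ hm
    rw [← map_pow, hζ.pow_eq_one, map_one]
  rw [map_aeval_int φ, map_aeval_int (starRingEnd ℂ), map_aeval_int φ, map_inv₀,
    Complex.inv_eq_conj h1]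

theorem real_conj {ζ : K} (hζ : IsPrimitiveRoot ζ m) {y : K} (hy : IsIntegral ℤ y)
    (φ0 : K →+* ℂ) (h0 : (starRingEnd ℂ) (φ0 y) = φ0 y) (φ : K →+* ℂ) :
    (starRingEnd ℂ) (φ y) = φ y := by
  obtain ⟨g, rfl⟩ := exists_poly hζ hy
  rw [star_eq (NeZero.ne m) hζ] at h0 ⊢
  rw [φ0.injective h0]

end cyc

theorem dichotomy (m : ℕ) [NeZero m] {K : Type} [Field K] [NumberField K]
    [IsCyclotomicExtension {m} ℚ K] {β : ℝ} (H : Hyp β) {x : K} {φ0 : K →+* ℂ}
    (hx : φ0 x = ((β + β⁻¹ : ℝ) : ℂ)) :
    IsIntegral ℤ (β⁻¹ : ℝ) ∧ ∀ φ : K →+* ℂ, Good (β + β⁻¹) (φ x) := by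
  classical
  have hβ0 : (β : ℝ) ≠ 0 := by
    have := H.one_lt
    positivity
  have hβC : (β : ℂ) ≠ 0 := by exact_mod_cast hβ0
  have hζ := IsCyclotomicExtension.zeta_spec m ℚ K
  set q : K[X] := X ^ 2 - C x * X + 1 with hq
  have hqdeg : q.natDegree = 2 := by
    rw [hq]
    compute_degree!
  have hqm : q.Monic := by
    rw [hq]
    monicity!
  have hφ0x : φ0 x = (β : ℂ) + (β : ℂ)⁻¹ := by
    rw [hx]
    push_cast
    ring
  by_cases hirr : Irreducible q
  · set f := minpoly ℤ β with hf
    have hdvd : q ∣ f.map (algebraMap ℤ K) := by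
      by_contra hnd
      have hcop : IsCoprime q (f.map (algebraMap ℤ K)) :=
        (Irreducible.coprime_iff_not_dvd hirr).2 hnd
      obtain ⟨a, b, hab⟩ := hcop
      have h1 := congrArg (fun p => (p.map φ0).eval (β : ℂ)) hab
      simp only [Polynomial.map_add, Polynomial.map_mul, eval_add, eval_mul,
        Polynomial.map_one, eval_one] at h1
      have h2 : (q.map φ0).eval (β : ℂ) = 0 := by
        simp [hq, hφ0x]
        field_simp
        ring
      have h3 : ((f.map (algebraMap ℤ K)).map φ0).eval (β : ℂ) = 0 := by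
        have h4 : (f.map (algebraMap ℤ K)).map φ0 = f.map (algebraMap ℤ ℂ) := by
          rw [Polynomial.map_map]
          congr 1
          exact RingHom.ext_int _ _
        rw [h4, eval_map_algebraMap, hf]
        have := map_aeval_int (algebraMap ℝ ℂ) β (minpoly ℤ β)
        rw [minpoly.aeval, map_zero] at this
        exact this.symm
      rw [h2, h3] at h1
      simp at h1
    -- roots of `X ^ 2 - φ x X + 1` are conjugates of `β`
    have hroot : ∀ (φ : K →+* ℂ) (z : ℂ), z ^ 2 - φ x * z + 1 = 0 → aeval z f = 0 := by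
      intro φ z hz
      obtain ⟨r, hr⟩ := hdvd
      have h4 : (f.map (algebraMap ℤ K)).map φ = f.map (algebraMap ℤ ℂ) := by
        rw [Polynomial.map_map]
        congr 1
        exact RingHom.ext_int _ _
      rw [← eval_map_algebraMap, ← h4, hr, Polynomial.map_mul, eval_mul]
      have h5 : (q.map φ).eval z = 0 := by
        simp [hq]
        exact hz
      rw [h5, zero_mul]
    constructor
    · have h1 : aeval (β : ℂ)⁻¹ f = 0 := by
        apply hroot φ0
        rw [hφ0x]
        field_simp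
        ring
      have h2 : aeval (β⁻¹ : ℝ) f = 0 := by
        apply (algebraMap ℝ ℂ).injective
        rw [map_aeval_int, map_zero]
        simpa using h1
      exact ⟨f, minpoly.monic H.integral, by rwa [← aeval_def]⟩
    · intro φ
      obtain ⟨s, hs⟩ := IsAlgClosed.exists_pow_nat_eq ((φ x) ^ 2 - 4) (n := 2) (by norm_num)
      set z : ℂ := (φ x + s) / 2 with hz
      have hz1 : z ^ 2 - φ x * z + 1 = 0 := by
        rw [hz]
        linear_combination (1 / 4 : ℂ) * hs
      have hz0 : z ≠ 0 := by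
        intro h
        rw [h] at hz1
        simp at hz1
      have hφx : φ x = z + z⁻¹ := by
        field_simp
        linear_combination -hz1
      have hz2 : (z⁻¹) ^ 2 - φ x * z⁻¹ + 1 = 0 := by
        rw [hφx]
        field_simp
        ring
      by_cases hzb : z = (β : ℂ)
      · left
        rw [hφx, hzb]
        push_cast
        ring
      by_cases hzb' : z⁻¹ = (β : ℂ)
      · left
        have : z = (β : ℂ)⁻¹ := by rw [← hzb', inv_inv]
        rw [hφx, hzb', this]
        push_cast
        ring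
      right
      have n1 := H.conj z (hroot φ z hz1) hzb
      have n2 := H.conj z⁻¹ (hroot φ z⁻¹ hz2) hzb'
      rw [norm_inv] at n2
      have n3 : ‖z‖ = 1 := by
        have hpos : 0 < ‖z‖ := norm_pos_iff.2 hz0
        apply le_antisymm n1
        rwa [inv_le_one₀ hpos] at n2
      refine ⟨2 * z.re, ?_, ?_⟩
      · rw [abs_mul]
        have : |z.re| ≤ 1 := n3 ▸ Complex.abs_re_le_norm z
        rw [abs_of_pos (by norm_num : (0:ℝ) < 2)]
        linarith
      · rw [hφx, Complex.inv_eq_conj n3, Complex.add_conj]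
  · exfalso
    rw [hqm.irreducible_iff_roots_eq_zero_of_degree_le_three (by omega) (by omega)] at hirr
    obtain ⟨y, hy⟩ := Multiset.exists_mem_of_ne_zero hirr
    have hy1 : y ^ 2 - x * y + 1 = 0 := by
      have := (mem_roots'.1 hy).2
      simpa [hq, IsRoot] using this
    have hy0 : y ≠ 0 := by
      intro h
      rw [h] at hy1
      simp at hy1
    -- an element `y'` of `K` mapping to `β`
    obtain ⟨y', hy'⟩ : ∃ y' : K, φ0 y' = (β : ℂ) := by
      have h1 := congrArg φ0 hy1
      simp only [map_add, map_sub, map_mul, map_pow, map_one, map_zero, hφ0x] at h1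
      have h2 : (φ0 y - β) * (φ0 y - (β : ℂ)⁻¹) = 0 := by
        have h3 : (β : ℂ) * (β : ℂ)⁻¹ = 1 := mul_inv_cancel₀ hβC
        linear_combination h1 + h3
      rcases mul_eq_zero.1 h2 with h | h
      · exact ⟨y, sub_eq_zero.1 h⟩
      · refine ⟨y⁻¹, ?_⟩
        rw [map_inv₀, sub_eq_zero.1 h, inv_inv]
    have hint : IsIntegral ℤ y' := by
      have h1 : IsIntegral ℤ (β : ℂ) := H.integral.map (algebraMap ℝ ℂ).toIntAlgHom
      have h2 : IsIntegral ℤ (φ0.toIntAlgHom y') := by
        show IsIntegral ℤ (φ0 y')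
        rw [hy']
        exact h1
      exact (isIntegral_algHom_iff φ0.toIntAlgHom φ0.injective).1 h2
    have hreal := real_conj hζ hint φ0 (by rw [hy']; exact Complex.conj_ofReal β)
    have hw : y' ^ 2 - 1 = 0 := by
      apply eq_zero_of_house_lt
      · exact (hint.pow 2).sub isIntegral_one
      · intro φ
        rw [map_sub, map_pow, map_one]
        obtain ⟨r, hr⟩ := Complex.conj_eq_iff_real.1 (hreal φ)
        rw [hr]
        have hr0 : r ≠ 0 := by
          intro h
          rw [h, Complex.ofReal_zero] at hr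
          have : y' = 0 := φ.injective (by rw [hr, map_zero])
          rw [this, map_zero] at hy'
          exact hβC hy'.symm
        have hrβ : r = β ∨ |r| ≤ 1 := by
          by_cases h : φ y' = (β : ℂ)
          · left
            rw [hr] at h
            exact Complex.ofReal_injective h
          · right
            have := H.conj (φ y') (root_of_root hy' φ) h
            rw [hr, Complex.norm_real] at this
            exact this
        rw [← Complex.ofReal_pow, ← Complex.ofReal_one, ← Complex.ofReal_sub, Complex.norm_real,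
          Real.norm_eq_abs, abs_lt]
        rcases hrβ with h | h
        · have h1 := H.one_lt
          have h2 := H.le
          rw [h]
          constructor <;> nlinarith
        · have h1 := abs_le.1 h
          have h2 : 0 < r ^ 2 := by positivity
          constructor <;> nlinarith
    have h3 := congrArg φ0 hw
    rw [map_sub, map_pow, map_one, map_zero, hy', ← Complex.ofReal_pow, ← Complex.ofReal_one,
      ← Complex.ofReal_sub, Complex.ofReal_eq_zero] at h3
    have h1 := H.one_lt
    nlinarith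

/-- The core statement: `β + β⁻¹` lies in no cyclotomic field. -/
theorem core {β : ℝ} (H : Hyp β) : ∀ m : ℕ, 0 < m → ∀ (K : Type) [Field K] [NumberField K]
    [IsCyclotomicExtension {m} ℚ K] (x : K) (φ0 : K →+* ℂ),
    φ0 x = ((β + β⁻¹ : ℝ) : ℂ) → False := by
  intro m
  induction m using Nat.strong_induction_on with
  | _ m ih =>
  intro hm K _ _ _ x φ0 hx
  have : NeZero m := ⟨hm.ne'⟩
  obtain ⟨hβi, hgood⟩ := dichotomy m H hx
  have hζ := IsCyclotomicExtension.zeta_spec m ℚ K
  set ζ := IsCyclotomicExtension.zeta m ℚ K with hζdef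
  have hxint : IsIntegral ℤ x := by
    have h2 : IsIntegral ℤ (φ0.toIntAlgHom x) := by
      show IsIntegral ℤ (φ0 x)
      rw [hx]
      exact (H.integral.add hβi).map (algebraMap ℝ ℂ).toIntAlgHom
    exact (isIntegral_algHom_iff φ0.toIntAlgHom φ0.injective).1 h2
  obtain ⟨g, hg⟩ := exists_poly hζ hxint
  have hζint : IsIntegral ℤ ζ := hζ.isIntegral hm
  have hgoodσ : ∀ (σ : K ≃ₐ[ℚ] K) (φ : K →+* ℂ), Good (β + β⁻¹) (φ (σ x)) := by
    intro σ φ
    exact hgood (φ.comp (σ : K →+* K))
  have hσx : ∀ σ : K ≃ₐ[ℚ] K, σ x = aeval (σ ζ) g := by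
    intro σ
    rw [← hg]
    exact map_aeval_int (σ : K →+* K) ζ g
  obtain ⟨h, hgh⟩ := exists_frob g
  have hfrob := fun u : K => aeval_frob g h hgh u
  have hint_aeval : ∀ (u : K) (p : ℤ[X]), IsIntegral ℤ u → IsIntegral ℤ (aeval u p) := by
    intro u p hu
    have : aeval u p ∈ Algebra.adjoin ℤ {u} := by
      rw [Algebra.adjoin_singleton_eq_range_aeval]
      exact ⟨p, rfl⟩
    exact (IsIntegral.of_mem_of_fg (Algebra.adjoin ℤ {u}) hu.fg_adjoin_singleton _ this)
  by_cases h7 : 7 ∣ m
  · obtain ⟨m', rfl⟩ := h7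
    have hm' : 0 < m' := by omega
    -- `x` lies in the smaller cyclotomic field
    have hfix : ∀ σ : K ≃ₐ[ℚ] K, σ (ζ ^ 7) = ζ ^ 7 → σ x = x := by
      intro σ hσ
      have hw : ∃ w : K, IsIntegral ℤ w ∧ P7 (σ x) - P7 x = 7 * w := by
        refine ⟨aeval (σ ζ) h - aeval ζ h - (σ x) ^ 5 + x ^ 5 + 2 * (σ x) ^ 3 - 2 * x ^ 3 - σ x + x,
          ?_, ?_⟩
        · have i1 := hint_aeval (σ ζ) h (hζint.map σ.toAlgHom.toRingHom.toIntAlgHom)
          have i2 := hint_aeval ζ h hζint
          have i3 : IsIntegral ℤ (σ x) := hxint.map σ.toAlgHom.toRingHom.toIntAlgHom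
          have i4 : IsIntegral ℤ (2 : K) := by
            have := isIntegral_algebraMap (R := ℤ) (A := K) (x := 2)
            simpa using this
          exact ((((((i1.sub i2).sub (i3.pow 5)).add (hxint.pow 5)).add
            (i4.mul (i3.pow 3))).sub (i4.mul (hxint.pow 3))).sub i3).add hxint
        · have e1 := hfrob (σ ζ)
          have e2 := hfrob ζ
          have e3 : (σ ζ) ^ 7 = ζ ^ 7 := by rw [← map_pow, hσ]
          rw [e3, ← hσx] at e1
          rw [hg] at e2
          unfold P7
          linear_combination e1 - e2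
      obtain ⟨w, hwi, hw⟩ := hw
      have hw0 : w = 0 := by
        apply eq_zero_of_house_lt w hwi
        intro φ
        have e := congrArg φ hw
        rw [map_sub, map_P7, map_P7, map_mul] at e
        have h7' : φ 7 = 7 := map_ofNat φ 7
        rw [h7'] at e
        have b := good_bound2 H.one_lt H.le (hgoodσ σ φ) (hgood φ)
        rw [e, norm_mul] at b
        have : ‖(7 : ℂ)‖ = 7 := by simp
        rw [this] at b
        linarith
      rw [hw0, mul_zero, sub_eq_zero] at hw
      apply φ0.injective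
      rw [hx]
      apply good_eq H.one_lt H.le (hgoodσ σ φ0)
      have := congrArg φ0 hw
      rw [map_P7, map_P7, hx] at this
      exact this
    have : IsGalois ℚ K := IsCyclotomicExtension.isGalois {7 * m'} ℚ K
    have hmem : x ∈ IntermediateField.adjoin ℚ {ζ ^ 7} := by
      rw [← IsGalois.fixedField_fixingSubgroup (IntermediateField.adjoin ℚ {ζ ^ 7}),
        IntermediateField.mem_fixedField_iff]
      intro σ hσ
      apply hfix
      rw [IntermediateField.mem_fixingSubgroup_iff] at hσ
      exact hσ _ (IntermediateField.mem_adjoin_simple_self ℚ (ζ ^ 7))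
    have : NeZero m' := ⟨hm'.ne'⟩
    have hζ7 : IsPrimitiveRoot (ζ ^ 7) m' := hζ.pow (by omega) rfl
    have hcyc : IsCyclotomicExtension {m'} ℚ (IntermediateField.adjoin ℚ {ζ ^ 7}) :=
      hζ7.intermediateField_adjoin_isCyclotomicExtension ℚ
    exact ih m' (by omega) hm' (IntermediateField.adjoin ℚ {ζ ^ 7}) ⟨x, hmem⟩
      (φ0.comp (algebraMap (IntermediateField.adjoin ℚ {ζ ^ 7}) K)) hx
  · -- unramified case
    have hcop : Nat.Coprime 7 m := (Nat.Prime.coprime_iff_not_dvd (by norm_num)).2 h7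
    have hζ7 : IsPrimitiveRoot (ζ ^ 7) m := hζ.pow_of_coprime 7 hcop
    let σ : K ≃ₐ[ℚ] K := IsCyclotomicExtension.fromZetaAut hζ7
      (cyclotomic.irreducible_rat hm)
    have hσζ : σ ζ = ζ ^ 7 := IsCyclotomicExtension.fromZetaAut_spec hζ7 _
    have hw : ∃ w : K, IsIntegral ℤ w ∧ P7 x - σ x = 7 * w := by
      refine ⟨aeval ζ h - x ^ 5 + 2 * x ^ 3 - x, ?_, ?_⟩
      · have i2 := hint_aeval ζ h hζint
        have i4 : IsIntegral ℤ (2 : K) := by
          have := isIntegral_algebraMap (R := ℤ) (A := K) (x := 2)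
          simpa using this
        exact ((i2.sub (hxint.pow 5)).add (i4.mul (hxint.pow 3))).sub hxint
      · have e2 := hfrob ζ
        rw [hσx, hσζ]
        rw [hg] at e2
        unfold P7
        linear_combination e2
    obtain ⟨w, hwi, hw⟩ := hw
    have hw0 : w = 0 := by
      apply eq_zero_of_house_lt w hwi
      intro φ
      have e := congrArg φ hw
      rw [map_sub, map_P7, map_mul] at e
      have h7' : φ 7 = 7 := map_ofNat φ 7
      rw [h7'] at e
      have b := good_bound1 H.one_lt H.le (hgood φ) (hgoodσ σ φ)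
      rw [e, norm_mul] at b
      have : ‖(7 : ℂ)‖ = 7 := by simp
      rw [this] at b
      linarith
    rw [hw0, mul_zero, sub_eq_zero] at hw
    apply S7_not_good H.one_lt H.le
    have := congrArg φ0 hw
    rw [map_P7, hx] at this
    rw [this]
    exact hgoodσ σ φ0

end Pool.Agent.MP1f45fc
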