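import Mathlib
import Pool.Agent.Lib.MP_1f45fc_nt.Cyclo2

set_option autoImplicit false

open Polynomial

namespace Pool.Agent.MP1f45fc

/-- Hypotheses used in the Frobenius argument. -/
structure Hyp2 (β : ℝ) : Prop where
  one_lt : 1 < β
  integral : IsIntegral ℤ β
  recip : aeval (β⁻¹ : ℝ) (minpoly ℤ β) = 0
  conj : ∀ z : ℂ, aeval z (minpoly ℤ β) = 0 → z ≠ (β : ℂ) → ‖z‖ ≤ 1

theorem Hyp2.inv_integral {β : ℝ} (H : Hyp2 β) : IsIntegral ℤ (β⁻¹ : ℝ) :=
  ⟨minpoly ℤ β, minpoly.monic H.integral, by rw [← aeval_def]; exact H.recip⟩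

theorem Hyp2.gamma_gt {β : ℝ} (H : Hyp2 β) : 2 < β + β⁻¹ := by
  have h1 := H.one_lt
  have h0 : 0 < β := by linarith
  have : β + β⁻¹ - 2 = (β - 1) ^ 2 / β := by
    field_simp
    ring
  have h3 : 0 < (β - 1) ^ 2 / β := by
    apply div_pos _ h0
    have : 0 < β - 1 := by linarith
    positivity
  linarith

/-- every conjugate of `β + β⁻¹` is `β + β⁻¹` or lies in `[-2, 2]` -/
theorem good_embedding {β : ℝ} (H : Hyp2 β) {N : Type} [Field N] [NumberField N] {x : N}
    {φ0 : N →+* ℂ} (hx : φ0 x = ((β + β⁻¹ : ℝ) : ℂ)) (φ : N →+* ℂ) :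
    Good (β + β⁻¹) (φ x) := by
  classical
  have hβ0 : (β : ℝ) ≠ 0 := by
    have := H.one_lt
    positivity
  have hβC : (β : ℂ) ≠ 0 := by exact_mod_cast hβ0
  set f := minpoly ℤ β with hf
  have hβroot : aeval (β : ℂ) f = 0 := by
    have := map_aeval_int (algebraMap ℝ ℂ) β (minpoly ℤ β)
    rw [minpoly.aeval, map_zero] at this
    exact this.symm
  have hβroot' : aeval (β : ℂ)⁻¹ f = 0 := by
    have := map_aeval_int (algebraMap ℝ ℂ) (β⁻¹) (minpoly ℤ β)
    rw [H.recip, map_zero] at this
    rw [hf, this]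
    simp
  set q : N[X] := X ^ 2 - C x * X + 1 with hq
  have hqdeg : q.natDegree = 2 := by
    rw [hq]
    compute_degree!
  have hqm : q.Monic := by
    rw [hq]
    monicity!
  have hφ0x : φ0 x = (β : ℂ) + (β : ℂ)⁻¹ := by
    rw [hx]
    push_cast
    ring
  -- it suffices that the roots of `X ^ 2 - φ x X + 1` are conjugates of `β`
  have key : (∀ z : ℂ, z ^ 2 - φ x * z + 1 = 0 → aeval z f = 0) → Good (β + β⁻¹) (φ x) := by
    intro hroot
    obtain ⟨s, hs⟩ := IsAlgClosed.exists_pow_nat_eq ((φ x) ^ 2 - 4) (n := 2) (by norm_num)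
    set z : ℂ := (φ x + s) / 2 with hz
    have hz1 : z ^ 2 - φ x * z + 1 = 0 := by
      rw [hz]
      linear_combination (1 / 4 : ℂ) * hs
    have hz0 : z ≠ 0 := by
      intro h
      rw [h] at hz1
      simp at hz1
    have hφx : φ x = z + z⁻¹ := by
      field_simp
      linear_combination -hz1
    have hz2 : (z⁻¹) ^ 2 - φ x * z⁻¹ + 1 = 0 := by
      rw [hφx]
      field_simp
      ring
    by_cases hzb : z = (β : ℂ)
    · left
      rw [hφx, hzb]
      push_cast
      ring
    by_cases hzb' : z⁻¹ = (β : ℂ)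
    · left
      have : z = (β : ℂ)⁻¹ := by rw [← hzb', inv_inv]
      rw [hφx, hzb', this]
      push_cast
      ring
    right
    have n1 := H.conj z (hroot z hz1) hzb
    have n2 := H.conj z⁻¹ (hroot z⁻¹ hz2) hzb'
    rw [norm_inv] at n2
    have n3 : ‖z‖ = 1 := by
      have hpos : 0 < ‖z‖ := norm_pos_iff.2 hz0
      apply le_antisymm n1
      rwa [inv_le_one₀ hpos] at n2
    refine ⟨2 * z.re, ?_, ?_⟩
    · rw [abs_mul]
      have : |z.re| ≤ 1 := n3 ▸ Complex.abs_re_le_norm z
      rw [abs_of_pos (by norm_num : (0:ℝ) < 2)]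
      linarith
    · rw [hφx, Complex.inv_eq_conj n3, Complex.add_conj]
  apply key
  intro z hz
  by_cases hirr : Irreducible q
  · have hdvd : q ∣ f.map (algebraMap ℤ N) := by
      by_contra hnd
      have hcop : IsCoprime q (f.map (algebraMap ℤ N)) :=
        (Irreducible.coprime_iff_not_dvd hirr).2 hnd
      obtain ⟨a, b, hab⟩ := hcop
      have h1 := congrArg (fun p => (p.map φ0).eval (β : ℂ)) hab
      simp only [Polynomial.map_add, Polynomial.map_mul, eval_add, eval_mul,
        Polynomial.map_one, eval_one] at h1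
      have h2 : (q.map φ0).eval (β : ℂ) = 0 := by
        simp [hq, hφ0x]
        field_simp
        ring
      have h3 : ((f.map (algebraMap ℤ N)).map φ0).eval (β : ℂ) = 0 := by
        have h4 : (f.map (algebraMap ℤ N)).map φ0 = f.map (algebraMap ℤ ℂ) := by
          rw [Polynomial.map_map]
          congr 1
          exact RingHom.ext_int _ _
        rw [h4, eval_map_algebraMap]
        exact hβroot
      rw [h2, h3] at h1
      simp at h1
    obtain ⟨r, hr⟩ := hdvd
    have h4 : (f.map (algebraMap ℤ N)).map φ = f.map (algebraMap ℤ ℂ) := by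
      rw [Polynomial.map_map]
      congr 1
      exact RingHom.ext_int _ _
    rw [← eval_map_algebraMap, ← h4, hr, Polynomial.map_mul, eval_mul]
    have h5 : (q.map φ).eval z = 0 := by
      simp [hq]
      exact hz
    rw [h5, zero_mul]
  · rw [hqm.irreducible_iff_roots_eq_zero_of_degree_le_three (by omega) (by omega)] at hirr
    obtain ⟨y, hy⟩ := Multiset.exists_mem_of_ne_zero hirr
    have hy1 : y ^ 2 - x * y + 1 = 0 := by
      have := (mem_roots'.1 hy).2
      simpa [hq, IsRoot] using this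
    have hy0 : y ≠ 0 := by
      intro h
      rw [h] at hy1
      simp at hy1
    have hxy : x = y + y⁻¹ := by
      field_simp
      linear_combination -hy1
    -- both `y` and `y⁻¹` are roots of `f`
    have hroots : aeval y f = 0 ∧ aeval y⁻¹ f = 0 := by
      have h1 := congrArg φ0 hy1
      simp only [map_add, map_sub, map_mul, map_pow, map_one, map_zero, hφ0x] at h1
      have h2 : (φ0 y - β) * (φ0 y - (β : ℂ)⁻¹) = 0 := by
        have h3 : (β : ℂ) * (β : ℂ)⁻¹ = 1 := mul_inv_cancel₀ hβC
        linear_combination h1 + h3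
      rcases mul_eq_zero.1 h2 with h | h
      · have h' := sub_eq_zero.1 h
        constructor
        · apply φ0.injective
          rw [map_aeval_int, h', hβroot, map_zero]
        · apply φ0.injective
          rw [map_aeval_int, map_inv₀, h', hβroot', map_zero]
      · have h' := sub_eq_zero.1 h
        constructor
        · apply φ0.injective
          rw [map_aeval_int, h', hβroot', map_zero]
        · apply φ0.injective
          rw [map_aeval_int, map_inv₀, h', inv_inv, hβroot, map_zero]
    have hφy0 : φ y ≠ 0 := by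
      rw [Ne, map_eq_zero]
      exact hy0
    have h2 : (z - φ y) * (z - (φ y)⁻¹) = 0 := by
      have h3 : (φ y) * (φ y)⁻¹ = 1 := mul_inv_cancel₀ hφy0
      rw [hxy, map_add, map_inv₀] at hz
      linear_combination hz + h3
    rcases mul_eq_zero.1 h2 with h | h
    · rw [sub_eq_zero.1 h, ← map_aeval_int, hroots.1, map_zero]
    · rw [sub_eq_zero.1 h, ← map_inv₀, ← map_aeval_int, hroots.2, map_zero]

/-- number of embeddings with prescribed value at `x` -/
theorem card_fiber {N : Type} [Field N] [NumberField N] (x : N) (w : ℂ)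
    (hw : aeval w (minpoly ℚ x) = 0) :
    Nat.card {φ : N →ₐ[ℚ] ℂ // φ x = w} =
      Module.finrank (IntermediateField.adjoin ℚ {x}) N := by
  classical
  have hint : IsIntegral ℚ x := Algebra.IsIntegral.isIntegral x
  let K := IntermediateField.adjoin ℚ {x}
  let pb := IntermediateField.adjoin.powerBasis hint
  have hgen : pb.gen = IntermediateField.AdjoinSimple.gen ℚ x := rfl
  have hmin : minpoly ℚ pb.gen = minpoly ℚ x := by
    rw [hgen]
    exact IntermediateField.minpoly_gen ℚ x
  have hw' : aeval w (minpoly ℚ pb.gen) = 0 := by rw [hmin]; exact hw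
  let ψ : K →ₐ[ℚ] ℂ := pb.lift w hw'
  have hψ : ψ pb.gen = w := pb.lift_gen w hw'
  let _ : Algebra K ℂ := ψ.toRingHom.toAlgebra
  have : IsScalarTower ℚ K ℂ := IsScalarTower.of_algebraMap_eq' (RingHom.ext_rat _ _)
  have halg : ∀ a : K, algebraMap K ℂ a = ψ a := fun a => rfl
  rw [← AlgHom.card K N ℂ, ← Nat.card_eq_fintype_card]
  refine Nat.card_congr ⟨fun φ => ⟨φ.1.toRingHom, ?_⟩, fun χ => ⟨χ.restrictScalars ℚ, ?_⟩, ?_, ?_⟩
  · intro a
    have h1 : φ.1.comp (IsScalarTower.toAlgHom ℚ K N) = ψ := by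
      apply pb.algHom_ext
      refine Eq.trans ?_ hψ.symm
      show φ.1 (algebraMap K N pb.gen) = w
      have : algebraMap K N pb.gen = x := IntermediateField.AdjoinSimple.algebraMap_gen ℚ x
      rw [this]
      exact φ.2
    have h2 := congrArg (fun θ : K →ₐ[ℚ] ℂ => θ a) h1
    exact h2
  · have : algebraMap K N pb.gen = x := IntermediateField.AdjoinSimple.algebraMap_gen ℚ x
    show χ x = w
    rw [← this, χ.commutes, halg, hψ]
  · intro φ
    ext a
    rfl
  · intro χ
    ext a
    rfl

end Pool.Agent.MP1f45fc
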