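import Mathlib
import Pool.Agent.Lib.MP_1f45fc_nt.Frob

set_option autoImplicit false

open Polynomial

namespace Pool.Agent.MP1f45fc

/-- Chebyshev (Dickson) polynomial: `D m (z + z⁻¹) = z ^ m + z⁻¹ ^ m`. -/
noncomputable def D (m : ℕ) : ℤ[X] := dickson 1 (1 : ℤ) m

theorem aeval_D_add_inv {R : Type*} [CommRing R] (m : ℕ) (x y : R) (h : x * y = 1) :
    aeval (x + y) (D m) = x ^ m + y ^ m := by
  have h1 := dickson_one_one_eval_add_inv x y h m
  rw [← h1, D, aeval_def, ← eval_map, map_dickson]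
  simp

/-- `S m = β ^ m + β ^ (-m)` -/
noncomputable def S (β : ℝ) (m : ℕ) : ℝ := β ^ m + (β ^ m)⁻¹

theorem aeval_D_gamma {β : ℝ} (hβ : β ≠ 0) (m : ℕ) :
    aeval ((β + β⁻¹ : ℝ) : ℂ) (D m) = ((S β m : ℝ) : ℂ) := by
  have h := aeval_D_add_inv m (β : ℂ) ((β : ℂ)⁻¹)
    (mul_inv_cancel₀ (by exact_mod_cast hβ))
  have h2 : ((β + β⁻¹ : ℝ) : ℂ) = (β : ℂ) + (β : ℂ)⁻¹ := by push_cast; ring
  rw [h2, h, S]
  push_cast
  rw [inv_pow]

theorem two_lt_S {β : ℝ} (hβ : 1 < β) {m : ℕ} (hm : m ≠ 0) : 2 < S β m := by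
  have h7 : 1 < β ^ m := one_lt_pow₀ hβ hm
  set s := β ^ m with hs
  have h0 : 0 < s := by linarith
  have : s + s⁻¹ - 2 = (s - 1) ^ 2 / s := by
    field_simp
    ring
  have h3 : 0 < (s - 1) ^ 2 / s := by
    apply div_pos _ h0
    have : 0 < s - 1 := by linarith
    positivity
  show 2 < s + s⁻¹
  linarith

theorem S_lt_S {β : ℝ} (hβ : 1 < β) {l m : ℕ} (hlm : l < m) : S β l < S β m := by
  have h1 : 1 ≤ β ^ l := one_le_pow₀ hβ.le
  have h2 : β ^ l < β ^ m := pow_lt_pow_right₀ hβ hlm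
  unfold S
  set a := β ^ l
  set b := β ^ m
  have ha : 0 < a := by linarith
  have hb : 0 < b := by linarith
  have h3 : b + b⁻¹ - (a + a⁻¹) = (b - a) * (a * b - 1) / (a * b) := by
    field_simp
    ring
  have h4 : 0 < (b - a) * (a * b - 1) / (a * b) := by
    apply div_pos
    · apply mul_pos
      · linarith
      · nlinarith
    · positivity
  linarith

theorem norm_D_le {t : ℝ} (ht : |t| ≤ 2) (m : ℕ) : ‖aeval (t : ℂ) (D m)‖ ≤ 2 := by
  -- write `t = z + conj z` with `‖z‖ = 1`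
  have h1 : (t / 2) ^ 2 ≤ 1 := by
    have := abs_le.1 ht
    nlinarith
  set z : ℂ := ⟨t / 2, Real.sqrt (1 - (t / 2) ^ 2)⟩ with hz
  have hz2 : z * (starRingEnd ℂ) z = 1 := by
    rw [Complex.mul_conj, Complex.normSq_apply]
    simp only [hz]
    have : Real.sqrt (1 - (t / 2) ^ 2) * Real.sqrt (1 - (t / 2) ^ 2) = 1 - (t / 2) ^ 2 :=
      Real.mul_self_sqrt (by linarith)
    rw [this]
    norm_cast
    ring
  have hzn : ‖z‖ = 1 := by
    have h2 := hz2
    rw [Complex.mul_conj, Complex.normSq_eq_norm_sq] at h2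
    have h3 : ‖z‖ ^ 2 = 1 := by exact_mod_cast h2
    have h4 : 0 ≤ ‖z‖ := norm_nonneg z
    nlinarith
  have hsum : (t : ℂ) = z + (starRingEnd ℂ) z := by
    rw [Complex.add_conj]
    simp only [hz]
    push_cast
    ring
  rw [hsum, aeval_D_add_inv m z _ hz2]
  calc ‖z ^ m + (starRingEnd ℂ) z ^ m‖ ≤ ‖z ^ m‖ + ‖(starRingEnd ℂ) z ^ m‖ := norm_add_le _ _
    _ = 2 := by
      rw [norm_pow, norm_pow, RCLike.norm_conj, hzn]
      norm_num

/-- The weight: `(s + 2) / 4` at the exceptional value, `1` elsewhere. -/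
noncomputable def wt (g s : ℝ) (y : ℂ) : ℝ := by
  classical
  exact if y = (g : ℂ) then (s + 2) / 4 else 1

theorem wt_pos (g s : ℝ) (hs : 0 < s) (y : ℂ) : 0 < wt g s y := by
  unfold wt
  split_ifs
  · positivity
  · norm_num

theorem good_norm_le {β : ℝ} (hβ : 1 < β) {l m : ℕ} (hl : l ≠ 0) (hm : m ≠ 0) {y y' : ℂ}
    (hy : Good (β + β⁻¹) y) (hy' : Good (β + β⁻¹) y') :
    ‖aeval y (D m) - aeval y' (D l)‖ ≤
      4 * (wt (β + β⁻¹) (S β m) y * wt (β + β⁻¹) (S β l) y') := by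
  have hβ0 : β ≠ 0 := by positivity
  have hSm := two_lt_S hβ hm
  have hSl := two_lt_S hβ hl
  have tri := norm_sub_le (aeval y (D m)) (aeval y' (D l))
  by_cases h1 : y = ((β + β⁻¹ : ℝ) : ℂ)
  · by_cases h2 : y' = ((β + β⁻¹ : ℝ) : ℂ)
    · have e1 : wt (β + β⁻¹) (S β m) y = (S β m + 2) / 4 := by unfold wt; rw [if_pos h1]
      have e2 : wt (β + β⁻¹) (S β l) y' = (S β l + 2) / 4 := by unfold wt; rw [if_pos h2]
      rw [e1, e2]
      rw [h1, h2, aeval_D_gamma hβ0, aeval_D_gamma hβ0, Complex.norm_real, Complex.norm_real,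
        Real.norm_eq_abs, Real.norm_eq_abs, abs_of_pos (by linarith), abs_of_pos (by linarith)]
        at tri
      rw [h1, h2, aeval_D_gamma hβ0, aeval_D_gamma hβ0]
      nlinarith
    · have e1 : wt (β + β⁻¹) (S β m) y = (S β m + 2) / 4 := by unfold wt; rw [if_pos h1]
      have e2 : wt (β + β⁻¹) (S β l) y' = 1 := by unfold wt; rw [if_neg h2]
      rw [e1, e2]
      rcases hy' with h | ⟨t, ht, h⟩
      · exact absurd h h2
      · have n2 := norm_D_le ht l
        rw [← h] at n2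
        have n1 : ‖aeval y (D m)‖ = S β m := by
          rw [h1, aeval_D_gamma hβ0, Complex.norm_real, Real.norm_eq_abs,
            abs_of_pos (by linarith)]
        linarith
  · have e1 : wt (β + β⁻¹) (S β m) y = 1 := by unfold wt; rw [if_neg h1]
    rw [e1]
    have n1 : ‖aeval y (D m)‖ ≤ 2 := by
      rcases hy with h | ⟨t, ht, h⟩
      · exact absurd h h1
      · rw [h]
        exact norm_D_le ht m
    by_cases h2 : y' = ((β + β⁻¹ : ℝ) : ℂ)
    · have e2 : wt (β + β⁻¹) (S β l) y' = (S β l + 2) / 4 := by unfold wt; rw [if_pos h2]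
      rw [e2]
      have n2 : ‖aeval y' (D l)‖ = S β l := by
        rw [h2, aeval_D_gamma hβ0, Complex.norm_real, Real.norm_eq_abs,
          abs_of_pos (by linarith)]
      linarith
    · have e2 : wt (β + β⁻¹) (S β l) y' = 1 := by unfold wt; rw [if_neg h2]
      rw [e2]
      have n2 : ‖aeval y' (D l)‖ ≤ 2 := by
        rcases hy' with h | ⟨t, ht, h⟩
        · exact absurd h h2
        · rw [h]
          exact norm_D_le ht l
      linarith

/-- product of the weights over all embeddings -/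
theorem prod_wt {N : Type} [Field N] [NumberField N] (x : N) (g s : ℝ)
    (hg : aeval (g : ℂ) (minpoly ℚ x) = 0) :
    ∏ φ : N →ₐ[ℚ] ℂ, wt g s (φ x) =
      ((s + 2) / 4) ^ Module.finrank (IntermediateField.adjoin ℚ {x}) N := by
  classical
  unfold wt
  rw [Finset.prod_ite, Finset.prod_const_one, mul_one, Finset.prod_const]
  congr 1
  rw [← card_fiber x (g : ℂ) hg, Nat.card_eq_fintype_card, Fintype.card_subtype]

/-- The master inequality. -/
theorem master {β : ℝ} (H : Hyp2 β) {c : ℕ} {l m Q : ℕ} (hl : l ≠ 0) (hlm : l < m) (hQ : 0 < Q)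
    (σ : Fin c → (ℂ →+* ℂ))
    (hint : IsIntegral ℤ ((∏ i, (aeval ((β + β⁻¹ : ℝ) : ℂ) (D m)
      - aeval (σ i ((β + β⁻¹ : ℝ) : ℂ)) (D l))) / (Q : ℂ))) :
    (Q : ℝ) ^ (minpoly ℚ (β + β⁻¹)).natDegree * 16 ^ c ≤
      ((S β m + 2) * (S β l + 2) * 4 ^ (minpoly ℚ (β + β⁻¹)).natDegree) ^ c := by
  classical
  have hβ1 := H.one_lt
  have hβ0 : β ≠ 0 := by positivity
  have hm : m ≠ 0 := by omega
  set γ : ℂ := ((β + β⁻¹ : ℝ) : ℂ) with hγ
  -- `γ` and its images are algebraic integers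
  have hγint : IsIntegral ℤ γ :=
    (H.integral.add H.inv_integral).map (algebraMap ℝ ℂ).toIntAlgHom
  have hσint : ∀ i, IsIntegral ℤ (σ i γ) := fun i => hγint.map (σ i).toIntAlgHom
  have hγQ : IsIntegral ℚ γ := hγint.tower_top
  -- the number field
  let T : Finset ℂ := insert γ (Finset.univ.image (fun i => σ i γ))
  let N := IntermediateField.adjoin ℚ (T : Set ℂ)
  have hfd : FiniteDimensional ℚ N := by
    apply IntermediateField.finiteDimensional_adjoin
    intro y hy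
    rcases Finset.mem_insert.1 hy with h | h
    · rw [h]
      exact hγQ
    · obtain ⟨i, _, rfl⟩ := Finset.mem_image.1 h
      exact (hσint i).tower_top
  have hnf : NumberField N := { }
  have hγN : γ ∈ N := IntermediateField.subset_adjoin ℚ _ (Finset.mem_insert_self _ _)
  have hσN : ∀ i, σ i γ ∈ N := fun i => IntermediateField.subset_adjoin ℚ _
    (Finset.mem_insert_of_mem (Finset.mem_image_of_mem _ (Finset.mem_univ i)))
  let x : N := ⟨γ, hγN⟩
  let y : Fin c → N := fun i => ⟨σ i γ, hσN i⟩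
  let φ0 : N →+* ℂ := algebraMap N ℂ
  have hx0 : φ0 x = γ := rfl
  have hy0 : ∀ i, φ0 (y i) = σ i γ := fun i => rfl
  -- minimal polynomials
  have hminx : minpoly ℚ x = minpoly ℚ (β + β⁻¹) := by
    have h1 : minpoly ℚ γ = minpoly ℚ (β + β⁻¹) :=
      minpoly.algebraMap_eq (algebraMap ℝ ℂ).injective (β + β⁻¹)
    have h2 : minpoly ℚ (φ0 x) = minpoly ℚ x :=
      minpoly.algebraMap_eq (algebraMap N ℂ).injective x
    rw [← h2, hx0, h1]
  have hminy : ∀ i, minpoly ℚ (y i) = minpoly ℚ x := by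
    intro i
    have h2 : minpoly ℚ (φ0 (y i)) = minpoly ℚ (y i) :=
      minpoly.algebraMap_eq (algebraMap N ℂ).injective (y i)
    have h3 : minpoly ℚ (φ0 x) = minpoly ℚ x :=
      minpoly.algebraMap_eq (algebraMap N ℂ).injective x
    have h4 : minpoly ℚ (σ i γ) = minpoly ℚ γ :=
      minpoly.algHom_eq (σ i).toRatAlgHom (σ i).injective γ
    rw [← h2, ← h3, hy0, hx0, h4]
  have hγroot : aeval γ (minpoly ℚ x) = 0 := by
    rw [hminx]
    have h1 : minpoly ℚ γ = minpoly ℚ (β + β⁻¹) :=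
      minpoly.algebraMap_eq (algebraMap ℝ ℂ).injective (β + β⁻¹)
    rw [← h1]
    exact minpoly.aeval ℚ γ
  -- embeddings send `x` and `y i` to good values
  have hgoodx : ∀ φ : N →+* ℂ, Good (β + β⁻¹) (φ x) := fun φ => good_embedding H hx0 φ
  have hgoody : ∀ (i : Fin c) (φ : N →+* ℂ), Good (β + β⁻¹) (φ (y i)) := by
    intro i φ
    -- find an embedding of `N` sending `y i` to `γ`
    have h1 : aeval γ (minpoly ℚ (y i)) = 0 := by rw [hminy]; exact hγroot
    have h2 := card_fiber (y i) γ h1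
    have h3 : 0 < Nat.card {φ : N →ₐ[ℚ] ℂ // φ (y i) = γ} := by
      rw [h2]
      exact Module.finrank_pos
    obtain ⟨⟨ψ, hψ⟩⟩ := (Nat.card_pos_iff.1 h3).1
    exact good_embedding H (φ0 := ψ.toRingHom) hψ φ
  -- the integral element
  let Θ : N := (∏ i, (aeval x (D m) - aeval (y i) (D l))) / (Q : N)
  have hΘ0 : φ0 Θ = (∏ i, (aeval γ (D m) - aeval (σ i γ) (D l))) / (Q : ℂ) := by
    simp only [Θ, map_div₀, map_prod, map_sub, map_natCast, map_aeval_int, hx0, hy0]
  have hΘint : IsIntegral ℤ Θ := by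
    have h2 : IsIntegral ℤ (φ0.toIntAlgHom Θ) := by
      show IsIntegral ℤ (φ0 Θ)
      rw [hΘ0]
      exact hint
    exact (isIntegral_algHom_iff φ0.toIntAlgHom φ0.injective).1 h2
  have hQ0 : (Q : ℝ) ≠ 0 := by positivity
  have hΘne : Θ ≠ 0 := by
    intro h
    have h1 := congrArg φ0 h
    rw [hΘ0, map_zero, div_eq_zero_iff] at h1
    rcases h1 with h1 | h1
    · obtain ⟨i, _, hi⟩ := Finset.prod_eq_zero_iff.1 h1
      rw [sub_eq_zero] at hi
      -- norms
      have n1 : ‖aeval γ (D m)‖ = S β m := by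
        rw [hγ, aeval_D_gamma hβ0, Complex.norm_real, Real.norm_eq_abs,
          abs_of_pos (by linarith [two_lt_S hβ1 hm])]
      have n2 : ‖aeval (σ i γ) (D l)‖ ≤ S β l := by
        have hg := hgoody i φ0
        rw [hy0] at hg
        rcases hg with h | ⟨t, ht, h⟩
        · rw [h, aeval_D_gamma hβ0, Complex.norm_real, Real.norm_eq_abs,
            abs_of_pos (by linarith [two_lt_S hβ1 hl])]
        · rw [h]
          exact (norm_D_le ht l).trans (two_lt_S hβ1 hl).le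
      rw [hi] at n1
      have := S_lt_S hβ1 hlm
      linarith
    · have : (Q : ℂ) ≠ 0 := by exact_mod_cast hQ.ne'
      exact this h1
  -- the norm of `Θ` is a nonzero integer
  have hnorm : 1 ≤ ∏ φ : N →ₐ[ℚ] ℂ, ‖φ Θ‖ := by
    have h1 : IsIntegral ℤ (Algebra.norm ℚ Θ) := Algebra.isIntegral_norm ℚ hΘint
    obtain ⟨z, hz⟩ := IsIntegrallyClosed.isIntegral_iff.1 h1
    have h2 : Algebra.norm ℚ Θ ≠ 0 := by
      rw [Ne, Algebra.norm_eq_zero_iff]
      exact hΘne
    have hz0 : z ≠ 0 := by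
      intro h
      rw [h, map_zero] at hz
      exact h2 hz.symm
    have h3 := Algebra.norm_eq_prod_embeddings ℚ ℂ Θ
    rw [← hz] at h3
    have h4 := congrArg norm h3
    rw [norm_prod] at h4
    rw [← h4]
    have h5 : ‖(algebraMap ℚ ℂ) ((algebraMap ℤ ℚ) z)‖ = |(z : ℝ)| := by
      simp [Complex.norm_intCast]
    rw [h5]
    have h6 : 1 ≤ |z| := Int.one_le_abs hz0
    exact_mod_cast h6
  -- upper bound
  set r := Module.finrank (IntermediateField.adjoin ℚ {x}) N with hr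
  set d := (minpoly ℚ (β + β⁻¹)).natDegree with hd
  have hcard : Fintype.card (N →ₐ[ℚ] ℂ) = d * r := by
    rw [AlgHom.card ℚ N ℂ, hr, hd, ← hminx,
      ← IntermediateField.adjoin.finrank (Algebra.IsIntegral.isIntegral x : IsIntegral ℚ x)]
    exact (Module.finrank_mul_finrank ℚ (IntermediateField.adjoin ℚ {x}) N).symm
  have hry : ∀ i, Module.finrank (IntermediateField.adjoin ℚ {y i}) N = r := by
    intro i
    have h1 := Module.finrank_mul_finrank ℚ (IntermediateField.adjoin ℚ {y i}) N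
    have h2 := Module.finrank_mul_finrank ℚ (IntermediateField.adjoin ℚ {x}) N
    rw [IntermediateField.adjoin.finrank (Algebra.IsIntegral.isIntegral (y i) : IsIntegral ℚ (y i)),
      hminy] at h1
    rw [IntermediateField.adjoin.finrank (Algebra.IsIntegral.isIntegral x : IsIntegral ℚ x)] at h2
    have h3 : 0 < (minpoly ℚ x).natDegree :=
      minpoly.natDegree_pos (Algebra.IsIntegral.isIntegral x)
    exact Nat.eq_of_mul_eq_mul_left h3 (h1.trans h2.symm)
  have hrpos : 0 < r := Module.finrank_pos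
  have hupper : ∏ φ : N →ₐ[ℚ] ℂ, ‖φ Θ‖ ≤
      ∏ φ : N →ₐ[ℚ] ℂ, ((∏ i : Fin c, (4 * (wt (β + β⁻¹) (S β m) (φ x) *
        wt (β + β⁻¹) (S β l) (φ (y i))))) / Q) := by
    apply Finset.prod_le_prod
    · intro φ _
      exact norm_nonneg _
    · intro φ _
      have e : φ Θ = (∏ i, (aeval (φ x) (D m) - aeval (φ (y i)) (D l))) / (Q : ℂ) := by
        have e1 : ∀ (u : N) (P : ℤ[X]), φ (aeval u P) = aeval (φ u) P :=
          fun u P => map_aeval_int φ.toRingHom u P
        simp only [Θ, map_div₀, map_prod, map_sub, map_natCast, e1]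
      rw [e, norm_div, norm_prod, Complex.norm_natCast]
      gcongr with i _
      exact good_norm_le hβ1 hl hm (hgoodx φ.toRingHom) (hgoody i φ.toRingHom)
  have hval : ∏ φ : N →ₐ[ℚ] ℂ, ((∏ i : Fin c, (4 * (wt (β + β⁻¹) (S β m) (φ x) *
        wt (β + β⁻¹) (S β l) (φ (y i))))) / Q) =
      ((4 ^ d * ((S β m + 2) / 4 * ((S β l + 2) / 4))) ^ c / (Q : ℝ) ^ d) ^ r := by
    rw [Finset.prod_div_distrib, Finset.prod_const, Finset.card_univ, hcard, Finset.prod_comm]
    have : ∀ i : Fin c, ∏ φ : N →ₐ[ℚ] ℂ, (4 * (wt (β + β⁻¹) (S β m) (φ x) *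
        wt (β + β⁻¹) (S β l) (φ (y i)))) =
        (4 ^ d * ((S β m + 2) / 4 * ((S β l + 2) / 4))) ^ r := by
      intro i
      rw [Finset.prod_mul_distrib, Finset.prod_mul_distrib, Finset.prod_const, Finset.card_univ,
        hcard, prod_wt x _ _ hγroot, prod_wt (y i) _ _ (by rw [hminy]; exact hγroot), hry i, ← hr]
      rw [mul_pow, mul_pow, pow_mul]
    rw [Finset.prod_congr rfl (fun i _ => this i), Finset.prod_const, Finset.card_univ,
      Fintype.card_fin, div_pow, ← pow_mul, ← pow_mul, ← pow_mul, mul_comm r c]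
  have hfin := hnorm.trans (hupper.trans hval.le)
  have hbase : 1 ≤ (4 ^ d * ((S β m + 2) / 4 * ((S β l + 2) / 4))) ^ c / (Q : ℝ) ^ d := by
    by_contra hcon
    push Not at hcon
    have hS1 := two_lt_S hβ1 hm
    have hS2 := two_lt_S hβ1 hl
    have h0 : 0 ≤ (4 ^ d * ((S β m + 2) / 4 * ((S β l + 2) / 4))) ^ c / (Q : ℝ) ^ d := by
      positivity
    have := pow_lt_one₀ h0 hcon hrpos.ne'
    linarith
  have hQd : 0 < (Q : ℝ) ^ d := by positivity
  rw [le_div_iff₀ hQd, one_mul] at hbase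
  calc (Q : ℝ) ^ d * 16 ^ c ≤
      (4 ^ d * ((S β m + 2) / 4 * ((S β l + 2) / 4))) ^ c * 16 ^ c := by gcongr
    _ = ((S β m + 2) * (S β l + 2) * 4 ^ d) ^ c := by
      rw [← mul_pow]
      congr 1
      ring

end Pool.Agent.MP1f45fc
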