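import Mathlib

set_option autoImplicit false

open Polynomial

namespace Pool.Agent.MP1f45fc

/-- Abstract form of Parry's bound on the conjugates of a Parry number. -/
theorem norm_le_two_of_bounded {B : ℝ} {Z : ℂ} (hZB : Z ≠ (B : ℂ)) (r : ℕ → ℝ) (t : ℕ → ℤ)
    (w : ℕ → ℂ) (hr0 : r 0 = 1) (hw0 : w 0 = 1) (hr : ∀ k, r (k + 1) = B * r k - t k)
    (hw : ∀ k, w (k + 1) = Z * w k - t k) (hr01 : ∀ k, 0 ≤ r k ∧ r k ≤ 1)
    {C : ℝ} (hC : ∀ k, ‖w k‖ ≤ C) : ‖Z‖ ≤ 2 := by
  by_contra hcon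
  push Not at hcon
  -- the auxiliary sequence
  let v : ℕ → ℂ := fun n => Nat.rec (motive := fun _ => ℂ) 1 (fun k y => Z * y + r (k + 1)) n
  have hv0 : v 0 = 1 := rfl
  have hvs : ∀ k, v (k + 1) = Z * v k + r (k + 1) := fun k => rfl
  have hwv : ∀ k, w (k + 1) = (Z - B) * v k + r (k + 1) := by
    intro k
    induction k with
    | zero =>
      rw [hw, hw0, hv0, hr, hr0]
      push_cast
      ring
    | succ k ih =>
      rw [hw (k + 1), ih, hvs k, hr (k + 1)]
      push_cast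
      ring
  have hZB' : Z - B ≠ 0 := sub_ne_zero.2 hZB
  have hpos : 0 < ‖Z - B‖ := norm_pos_iff.2 hZB'
  have hvb : ∀ k, ‖v k‖ ≤ (C + 1) / ‖Z - B‖ := by
    intro k
    rw [le_div_iff₀ hpos]
    calc ‖v k‖ * ‖Z - B‖ = ‖(Z - B) * v k‖ := by rw [norm_mul, mul_comm]
      _ = ‖w (k + 1) - r (k + 1)‖ := by rw [hwv k]; congr 1; ring
      _ ≤ ‖w (k + 1)‖ + ‖(r (k + 1) : ℂ)‖ := norm_sub_le _ _
      _ ≤ C + 1 := by
        have h1 := hC (k + 1)
        have h2 : ‖(r (k + 1) : ℂ)‖ ≤ 1 := by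
          rw [Complex.norm_real, Real.norm_eq_abs, abs_of_nonneg (hr01 (k + 1)).1]
          exact (hr01 (k + 1)).2
        linarith
  set a := ‖Z‖ with ha
  have hgrow : ∀ k, (1 / (a - 1)) + a ^ k * (1 - 1 / (a - 1)) ≤ ‖v k‖ := by
    intro k
    induction k with
    | zero =>
      rw [hv0]
      simp
    | succ k ih =>
      have h1 : a * ‖v k‖ - 1 ≤ ‖v (k + 1)‖ := by
        have h2 : ‖(r (k + 1) : ℂ)‖ ≤ 1 := by
          rw [Complex.norm_real, Real.norm_eq_abs, abs_of_nonneg (hr01 (k + 1)).1]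
          exact (hr01 (k + 1)).2
        have h3 : ‖Z * v k‖ ≤ ‖v (k + 1)‖ + ‖(r (k + 1) : ℂ)‖ := by
          calc ‖Z * v k‖ = ‖v (k + 1) - r (k + 1)‖ := by rw [hvs k]; congr 1; ring
            _ ≤ _ := norm_sub_le _ _
        rw [norm_mul] at h3
        linarith
      have h4 : a * ((1 / (a - 1)) + a ^ k * (1 - 1 / (a - 1))) ≤ a * ‖v k‖ :=
        mul_le_mul_of_nonneg_left ih (by linarith)
      have h5 : a * (1 / (a - 1)) - 1 = 1 / (a - 1) := by
        have : a - 1 ≠ 0 := by linarith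
        field_simp
        ring
      have h6 : a * ((1 / (a - 1)) + a ^ k * (1 - 1 / (a - 1))) - 1
          = (1 / (a - 1)) + a ^ (k + 1) * (1 - 1 / (a - 1)) := by
        rw [mul_add, add_sub_right_comm, h5]
        ring
      linarith
  have hc : 0 < 1 - 1 / (a - 1) := by
    rw [sub_pos, div_lt_one (by linarith)]
    linarith
  obtain ⟨n, hn⟩ := pow_unbounded_of_one_lt (((C + 1) / ‖Z - B‖) / (1 - 1 / (a - 1)))
    (show 1 < a by linarith)
  have h1 := hgrow n
  have h2 := hvb n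
  rw [div_lt_iff₀ hc] at hn
  have h3 : 0 < 1 / (a - 1) := by
    apply div_pos one_pos
    linarith
  linarith

/-- If the orbit of `1` under `x ↦ fract (β ^ n * x)` is finite then every conjugate `z` of `β`
with `z ^ n ≠ β ^ n` satisfies `‖z‖ ^ n ≤ 2`. -/
theorem conj_pow_le_two {β : ℝ} (hint : IsIntegral ℤ β) {n : ℕ}
    (hfin : (Set.range (fun k : ℕ => (fun x : ℝ => Int.fract (β ^ n * x))^[k] (1 : ℝ))).Finite)
    {z : ℂ} (hz : aeval z (minpoly ℤ β) = 0) (hzn : z ^ n ≠ (β : ℂ) ^ n) : ‖z‖ ^ n ≤ 2 := by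
  -- the field generated by `β`
  have hq : minpoly ℚ (β : ℂ) = (minpoly ℤ β).map (algebraMap ℤ ℚ) := by
    rw [← minpoly.isIntegrallyClosed_eq_field_fractions' ℚ hint]
    exact minpoly.algebraMap_eq (algebraMap ℝ ℂ).injective β
  have hzq : aeval z (minpoly ℚ (β : ℂ)) = 0 := by
    rw [hq, aeval_map_algebraMap]
    exact hz
  have hintq : IsIntegral ℚ (β : ℂ) := by
    have h1 : IsIntegral ℤ (β : ℂ) := hint.map (algebraMap ℝ ℂ).toIntAlgHom
    exact h1.tower_top
  let K := IntermediateField.adjoin ℚ {(β : ℂ)}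
  let b : K := IntermediateField.AdjoinSimple.gen ℚ (β : ℂ)
  have hb : (b : ℂ) = (β : ℂ) := IntermediateField.AdjoinSimple.coe_gen ℚ (β : ℂ)
  obtain ⟨φ, hφ⟩ : ∃ φ : K →ₐ[ℚ] ℂ, φ b = z := by
    let pb := IntermediateField.adjoin.powerBasis hintq
    have hgen : pb.gen = b := rfl
    have hmin : minpoly ℚ pb.gen = minpoly ℚ (β : ℂ) := by
      rw [hgen]
      exact IntermediateField.minpoly_gen ℚ (β : ℂ)
    have hz' : aeval z (minpoly ℚ pb.gen) = 0 := by rw [hmin]; exact hzq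
    exact ⟨pb.lift z hz', by rw [← hgen]; exact pb.lift_gen z hz'⟩
  let T : ℝ → ℝ := fun x => Int.fract (β ^ n * x)
  let r : ℕ → ℝ := fun k => T^[k] 1
  have hrs : ∀ k, r (k + 1) = β ^ n * r k - ⌊β ^ n * r k⌋ := by
    intro k
    show T^[k + 1] 1 = _
    rw [Function.iterate_succ_apply']
    show Int.fract (β ^ n * r k) = _
    rw [Int.fract]
  let x : ℕ → K := fun k => Nat.rec (motive := fun _ => K) 1
    (fun k y => b ^ n * y - ((⌊β ^ n * r k⌋ : ℤ) : K)) k
  have hx0 : x 0 = 1 := rfl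
  have hxs : ∀ k, x (k + 1) = b ^ n * x k - ((⌊β ^ n * r k⌋ : ℤ) : K) := fun k => rfl
  have hxr : ∀ k, ((x k : K) : ℂ) = (r k : ℂ) := by
    intro k
    induction k with
    | zero =>
      rw [hx0]
      show (1 : ℂ) = ((1 : ℝ) : ℂ)
      simp
    | succ k ih =>
      rw [hxs, hrs]
      push_cast
      rw [ih, hb]
  -- finiteness of the orbit in `K`
  have hxfin : (Set.range x).Finite := by
    have h1 : (Set.range (fun k => (r k : ℂ))).Finite := by
      have : Set.range (fun k => (r k : ℂ)) = (fun y : ℝ => (y : ℂ)) '' (Set.range r) := by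
        rw [← Set.range_comp]
        rfl
      rw [this]
      exact hfin.image _
    have h2 : (fun y : K => (y : ℂ)) '' (Set.range x) = Set.range (fun k => (r k : ℂ)) := by
      rw [← Set.range_comp]
      congr 1
      funext k
      exact hxr k
    have h3 : ((fun y : K => (y : ℂ)) '' (Set.range x)).Finite := by rw [h2]; exact h1
    exact Set.Finite.of_finite_image h3 (Subtype.val_injective.injOn)
  have hwfin : (Set.range (fun k => φ (x k))).Finite := by
    have : Set.range (fun k => φ (x k)) = φ '' (Set.range x) := by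
      rw [← Set.range_comp]
      rfl
    rw [this]
    exact hxfin.image _
  obtain ⟨C, hC⟩ : ∃ C : ℝ, ∀ k, ‖φ (x k)‖ ≤ C := by
    obtain ⟨C, hC⟩ := (hwfin.isBounded).exists_norm_le
    exact ⟨C, fun k => hC _ ⟨k, rfl⟩⟩
  have hmain : ‖z ^ n‖ ≤ 2 := by
    refine norm_le_two_of_bounded (B := β ^ n) (Z := z ^ n) ?_ r (fun k => ⌊β ^ n * r k⌋)
      (fun k => φ (x k)) rfl ?_ hrs ?_ ?_ hC
    · push_cast
      exact hzn
    · show φ (x 0) = 1
      rw [hx0, map_one]
    · intro k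
      rw [hxs, map_sub, map_mul, map_pow, hφ, map_intCast]
    · intro k
      rcases k with _ | k
      · exact ⟨zero_le_one, le_rfl⟩
      · have : r (k + 1) = Int.fract (β ^ n * r k) := by
          show T^[k + 1] 1 = _
          rw [Function.iterate_succ_apply']
        rw [this]
        exact ⟨Int.fract_nonneg _, (Int.fract_lt_one _).le⟩
  rwa [norm_pow] at hmain

/-- If infinitely many powers of a Perron number `β` are Parry numbers, then all other conjugates
of `β` lie in the closed unit disc. -/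
theorem conj_le_one {β : ℝ} (hint : IsIntegral ℤ β)
    (hperron : ∀ z : ℂ, aeval z (minpoly ℤ β) = 0 → z ≠ (β : ℂ) → ‖z‖ < β)
    (hinf : {n : ℕ | 1 ≤ n ∧
      (Set.range (fun k : ℕ => (fun x : ℝ => Int.fract (β ^ n * x))^[k] (1 : ℝ))).Finite}.Infinite)
    (z : ℂ) (hz : aeval z (minpoly ℤ β) = 0) (hzβ : z ≠ (β : ℂ)) : ‖z‖ ≤ 1 := by
  by_contra hcon
  push Not at hcon
  obtain ⟨N, hN⟩ := pow_unbounded_of_one_lt 2 hcon
  obtain ⟨n, ⟨hn1, hnfin⟩, hnN⟩ := hinf.exists_gt N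
  have h1 : z ^ n ≠ (β : ℂ) ^ n := by
    intro h
    have h2 := congrArg norm h
    rw [norm_pow, norm_pow, Complex.norm_real, Real.norm_eq_abs] at h2
    have h3 := hperron z hz hzβ
    have hβ : 0 < β := lt_of_le_of_lt (norm_nonneg z) h3
    rw [abs_of_pos hβ] at h2
    have h4 : ‖z‖ ^ n < β ^ n := pow_lt_pow_left₀ h3 (norm_nonneg z) (by omega)
    exact absurd h2 (ne_of_lt h4)
  have h2 := conj_pow_le_two hint hnfin hz h1
  have h3 : ‖z‖ ^ N < ‖z‖ ^ n := pow_lt_pow_right₀ hcon hnN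
  linarith

end Pool.Agent.MP1f45fc
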