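import Mathlib
import Pool.Agent.Lib.MP_1f45fc_nt.Master
import Pool.Agent.Lib.MP_1f45fc_nt.Parry

set_option autoImplicit false

open Polynomial

namespace Pool.Agent.MP1f45fc

theorem D_one : D 1 = X := dickson_one 1 (1 : ℤ)

/-- `D p = X ^ p + p * E`. -/
theorem exists_D_prime (p : ℕ) (hp : p.Prime) : ∃ E : ℤ[X], D p = X ^ p + (p : ℤ[X]) * E := by
  have : Fact p.Prime := ⟨hp⟩
  have hz : (D p - X ^ p).map (Int.castRingHom (ZMod p)) = 0 := by
    rw [Polynomial.map_sub, D, map_dickson, Polynomial.map_pow, Polynomial.map_X]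
    simp only [eq_intCast, Int.cast_one]
    rw [dickson_one_one_zmod_p, sub_self]
  have hdvd : (C (p : ℤ)) ∣ (D p - X ^ p) := by
    rw [Polynomial.C_dvd_iff_dvd_coeff]
    intro i
    have := congrArg (fun q => q.coeff i) hz
    simp only [Polynomial.coeff_map, Polynomial.coeff_zero, eq_intCast] at this
    exact (ZMod.intCast_zmod_eq_zero_iff_dvd _ p).1 this
  obtain ⟨E, hE⟩ := hdvd
  refine ⟨E, ?_⟩
  have : D p = X ^ p + (D p - X ^ p) := by ring
  rw [this, hE]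
  simp

theorem D_mul (m n : ℕ) : D (m * n) = (D m).comp (D n) := dickson_one_one_mul ℤ m n

/-- divisibility in the ring of algebraic integers -/
theorem pow_congr {R : Type*} [CommRing R] (p : ℕ) (hp : p.Prime) (j : ℕ) (hj : 1 ≤ j) (u v : R)
    (h : (p : R) ^ j ∣ u - v) : (p : R) ^ (j + 1) ∣ aeval u (D p) - aeval v (D p) := by
  obtain ⟨E, hE⟩ := exists_D_prime p hp
  obtain ⟨w, hw⟩ := h
  have e1 : aeval u (D p) = u ^ p + p * aeval u E := by
    rw [hE]
    simp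
  have e2 : aeval v (D p) = v ^ p + p * aeval v E := by
    rw [hE]
    simp
  have e3 : u = v + (p : R) ^ j * w := by rw [← hw]; ring
  -- the powers
  have h1 : (p : R) ^ (j + 1) ∣ u ^ p - v ^ p := by
    obtain ⟨r, hr⟩ := exists_add_pow_prime_eq hp v ((p : R) ^ j * w)
    rw [e3, hr]
    have h2 : v ^ p + ((p : R) ^ j * w) ^ p + p * v * ((p : R) ^ j * w) * r - v ^ p
        = (p : R) ^ (j * p) * w ^ p + (p : R) ^ (j + 1) * (v * w * r) := by
      rw [mul_pow, ← pow_mul]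
      ring
    rw [h2]
    apply dvd_add
    · apply Dvd.dvd.mul_right
      apply pow_dvd_pow
      have := hp.two_le
      nlinarith
    · exact Dvd.intro _ rfl
  -- the rest
  have h2 : (p : R) ^ (j + 1) ∣ (p : R) * (aeval u E - aeval v E) := by
    have h3 : u - v ∣ aeval u E - aeval v E := by
      have := Polynomial.sub_dvd_eval_sub u v (E.map (algebraMap ℤ R))
      rwa [eval_map_algebraMap, eval_map_algebraMap] at this
    have h4 : (p : R) ^ j ∣ aeval u E - aeval v E := (Dvd.intro _ hw.symm).trans h3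
    rw [pow_succ, mul_comm]
    exact mul_dvd_mul_left _ h4
  have : aeval u (D p) - aeval v (D p) = (u ^ p - v ^ p) + p * (aeval u E - aeval v E) := by
    rw [e1, e2]
    ring
  rw [this]
  exact dvd_add h1 h2

/-- `D (p ^ (j + 1)) x - D (p ^ j) y` is divisible by `p ^ (j + 1)` as soon as `p ∣ x ^ p - y`. -/
theorem frob_lift {R : Type*} [CommRing R] (p : ℕ) (hp : p.Prime) (x y : R)
    (h : (p : R) ∣ x ^ p - y) (j : ℕ) :
    (p : R) ^ (j + 1) ∣ aeval x (D (p ^ (j + 1))) - aeval y (D (p ^ j)) := by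
  induction j with
  | zero =>
    obtain ⟨E, hE⟩ := exists_D_prime p hp
    simp only [zero_add, pow_one, pow_zero, D_one, aeval_X]
    have e1 : aeval x (D p) = x ^ p + p * aeval x E := by
      rw [hE]
      simp
    rw [e1]
    have : x ^ p + (p : R) * aeval x E - y = (x ^ p - y) + p * aeval x E := by ring
    rw [this]
    exact dvd_add h (Dvd.intro _ rfl)
  | succ j ih =>
    have e1 : aeval x (D (p ^ (j + 1 + 1))) = aeval (aeval x (D (p ^ (j + 1)))) (D p) := by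
      rw [pow_succ' p (j + 1), D_mul, aeval_comp]
    have e2 : aeval y (D (p ^ (j + 1))) = aeval (aeval y (D (p ^ j))) (D p) := by
      rw [pow_succ' p j, D_mul, aeval_comp]
    rw [e1, e2]
    exact pow_congr p hp (j + 1) (by omega) _ _ ih

/-- passing from divisibility in the ring of algebraic integers to integrality of the quotient,
and back -/
theorem isIntegral_div_iff (a q : ℂ) (hq : q ≠ 0) (ha : IsIntegral ℤ a) (hqi : IsIntegral ℤ q) :
    IsIntegral ℤ (a / q) ↔ (⟨q, hqi⟩ : integralClosure ℤ ℂ) ∣ ⟨a, ha⟩ := by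
  constructor
  · intro h
    refine ⟨⟨a / q, h⟩, ?_⟩
    apply Subtype.ext
    show a = q * (a / q)
    field_simp
  · rintro ⟨w, hw⟩
    have h1 : a = q * (w : ℂ) := congrArg Subtype.val hw
    rw [h1, mul_div_cancel_left₀ _ hq]
    exact w.2

/-- The hypotheses `Hyp2` hold if `β` is a reciprocal Perron number with infinitely many Parry
powers. -/
theorem hyp2_of_infinite {β : ℝ} (h1 : 1 < β) (hint : IsIntegral ℤ β)
    (hperron : ∀ z : ℂ, aeval z (minpoly ℤ β) = 0 → z ≠ (β : ℂ) → ‖z‖ < β)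
    (hrec : aeval (β⁻¹ : ℝ) (minpoly ℤ β) = 0)
    (hinf : {n : ℕ | 1 ≤ n ∧
      (Set.range (fun k : ℕ => (fun x : ℝ => Int.fract (β ^ n * x))^[k] (1 : ℝ))).Finite}.Infinite) :
    Hyp2 β :=
  ⟨h1, hint, hrec, conj_le_one hint hperron hinf⟩

/-- Master inequality for Frobenius classes with `c` values. -/
theorem frobClass_ineq {β : ℝ} (H : Hyp2 β) {c : ℕ} {p : ℕ} (hp : p.Prime)
    (σ : Fin c → (ℂ →+* ℂ))
    (hint : IsIntegral ℤ ((∏ i, (((β + β⁻¹ : ℝ) : ℂ) ^ p
      - σ i ((β + β⁻¹ : ℝ) : ℂ))) / (p : ℂ))) :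
    (p : ℝ) ^ (minpoly ℚ (β + β⁻¹)).natDegree * 16 ^ c ≤
      ((S β p + 2) * (S β 1 + 2) * 4 ^ (minpoly ℚ (β + β⁻¹)).natDegree) ^ c := by
  set γ : ℂ := ((β + β⁻¹ : ℝ) : ℂ) with hγ
  have hγint : IsIntegral ℤ γ :=
    (H.integral.add H.inv_integral).map (algebraMap ℝ ℂ).toIntAlgHom
  have hσint : ∀ i, IsIntegral ℤ (σ i γ) := fun i => hγint.map (σ i).toIntAlgHom
  have hpC : (p : ℂ) ≠ 0 := by exact_mod_cast hp.ne_zero
  have hpi : IsIntegral ℤ (p : ℂ) := by
    have := isIntegral_algebraMap (R := ℤ) (A := ℂ) (x := (p : ℤ))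
    simpa using this
  obtain ⟨E, hE⟩ := exists_D_prime p hp
  let R := integralClosure ℤ ℂ
  let x : R := ⟨γ, hγint⟩
  let y : Fin c → R := fun i => ⟨σ i γ, hσint i⟩
  have hcoe : ∀ (u : R) (P : ℤ[X]), ((aeval u P : R) : ℂ) = aeval (u : ℂ) P :=
    fun u P => map_aeval_int (algebraMap R ℂ) u P
  have hA : IsIntegral ℤ (∏ i, (γ ^ p - σ i γ)) :=
    IsIntegral.prod _ fun i _ => (hγint.pow p).sub (hσint i)
  have hdvd : ((p : R)) ∣ ∏ i, (x ^ p - y i) := by
    have h1 := (isIntegral_div_iff _ _ hpC hA hpi).1 hint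
    have h2 : (⟨∏ i, (γ ^ p - σ i γ), hA⟩ : R) = ∏ i, (x ^ p - y i) := by
      apply Subtype.ext
      show ∏ i, (γ ^ p - σ i γ) = ((∏ i, (x ^ p - y i) : R) : ℂ)
      rw [← Subalgebra.coe_val, map_prod]
      rfl
    have h3 : (⟨(p : ℂ), hpi⟩ : R) = (p : R) := by
      apply Subtype.ext
      show (p : ℂ) = ((p : R) : ℂ)
      simp
    rwa [h2, h3] at h1
  have hdvd2 : ((p : R)) ∣ ∏ i, (aeval x (D p) - y i) := by
    have h1 : Ideal.Quotient.mk (Ideal.span {(p : R)}) (∏ i, (aeval x (D p) - y i)) =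
        Ideal.Quotient.mk (Ideal.span {(p : R)}) (∏ i, (x ^ p - y i)) := by
      rw [map_prod, map_prod]
      apply Finset.prod_congr rfl
      intro i _
      rw [Ideal.Quotient.eq, Ideal.mem_span_singleton]
      have e1 : aeval x (D p) = x ^ p + p * aeval x E := by
        rw [hE]
        simp
      rw [e1]
      exact ⟨aeval x E, by ring⟩
    rw [Ideal.Quotient.eq, Ideal.mem_span_singleton] at h1
    have := dvd_add h1 hdvd
    rwa [sub_add_cancel] at this
  have hlt : 1 < p := hp.one_lt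
  refine master H (l := 1) (m := p) (Q := p) one_ne_zero hlt hp.pos σ ?_
  simp only [D_one, aeval_X]
  have hB : IsIntegral ℤ (∏ i, (aeval γ (D p) - σ i γ)) := by
    have : ((∏ i, (aeval x (D p) - y i) : R) : ℂ) = ∏ i, (aeval γ (D p) - σ i γ) := by
      rw [← Subalgebra.coe_val, map_prod]
      apply Finset.prod_congr rfl
      intro i _
      show ((aeval x (D p) - y i : R) : ℂ) = _
      rw [AddSubgroupClass.coe_sub, hcoe]
    rw [← this]
    exact (∏ i, (aeval x (D p) - y i) : R).2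
  rw [isIntegral_div_iff _ _ hpC hB hpi]
  have h2 : (⟨∏ i, (aeval γ (D p) - σ i γ), hB⟩ : R) = ∏ i, (aeval x (D p) - y i) := by
    apply Subtype.ext
    show ∏ i, (aeval γ (D p) - σ i γ) = ((∏ i, (aeval x (D p) - y i) : R) : ℂ)
    rw [← Subalgebra.coe_val, map_prod]
    apply Finset.prod_congr rfl
    intro i _
    show _ = ((aeval x (D p) - y i : R) : ℂ)
    rw [AddSubgroupClass.coe_sub, hcoe]
  have h3 : (⟨(p : ℂ), hpi⟩ : R) = (p : R) := by
    apply Subtype.ext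
    show (p : ℂ) = ((p : R) : ℂ)
    simp
  rw [h2, h3]
  exact hdvd2

/-- Master inequality for central Frobenius, with prime powers. -/
theorem frobCentral_ineq {β : ℝ} (H : Hyp2 β) {p : ℕ} (hp : p.Prime) (j : ℕ)
    (σ : ℂ →+* ℂ)
    (hint : IsIntegral ℤ ((((β + β⁻¹ : ℝ) : ℂ) ^ p - σ ((β + β⁻¹ : ℝ) : ℂ)) / (p : ℂ))) :
    ((p : ℝ) ^ (j + 1)) ^ (minpoly ℚ (β + β⁻¹)).natDegree * 16 ≤
      (S β (p ^ (j + 1)) + 2) * (S β (p ^ j) + 2) * 4 ^ (minpoly ℚ (β + β⁻¹)).natDegree := by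
  set γ : ℂ := ((β + β⁻¹ : ℝ) : ℂ) with hγ
  have hγint : IsIntegral ℤ γ :=
    (H.integral.add H.inv_integral).map (algebraMap ℝ ℂ).toIntAlgHom
  have hσint : IsIntegral ℤ (σ γ) := hγint.map σ.toIntAlgHom
  have hpC : (p : ℂ) ≠ 0 := by exact_mod_cast hp.ne_zero
  have hpi : IsIntegral ℤ (p : ℂ) := by
    have := isIntegral_algebraMap (R := ℤ) (A := ℂ) (x := (p : ℤ))
    simpa using this
  let R := integralClosure ℤ ℂ
  let x : R := ⟨γ, hγint⟩
  let y : R := ⟨σ γ, hσint⟩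
  have hcoe : ∀ (u : R) (P : ℤ[X]), ((aeval u P : R) : ℂ) = aeval (u : ℂ) P :=
    fun u P => map_aeval_int (algebraMap R ℂ) u P
  have hdvd : ((p : R)) ∣ x ^ p - y := by
    have h1 := (isIntegral_div_iff _ _ hpC ((hγint.pow p).sub hσint) hpi).1 hint
    have h3 : (⟨(p : ℂ), hpi⟩ : R) = (p : R) := by
      apply Subtype.ext
      show (p : ℂ) = ((p : R) : ℂ)
      simp
    rw [h3] at h1
    exact h1
  have h4 := frob_lift p hp x y hdvd j
  have hlt : p ^ j < p ^ (j + 1) := Nat.pow_lt_pow_right hp.one_lt (Nat.lt_succ_self j)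
  have hm := master H (c := 1) (l := p ^ j) (m := p ^ (j + 1)) (Q := p ^ (j + 1))
    (pow_ne_zero _ hp.ne_zero) hlt (pow_pos hp.pos _) (fun _ => σ) ?_
  · simpa using hm
  · rw [Fin.prod_univ_one]
    have hB : IsIntegral ℤ (aeval γ (D (p ^ (j + 1))) - aeval (σ γ) (D (p ^ j))) := by
      have : ((aeval x (D (p ^ (j + 1))) - aeval y (D (p ^ j)) : R) : ℂ)
          = aeval γ (D (p ^ (j + 1))) - aeval (σ γ) (D (p ^ j)) := by
        rw [AddSubgroupClass.coe_sub, hcoe, hcoe]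
      rw [← this]
      exact (aeval x (D (p ^ (j + 1))) - aeval y (D (p ^ j)) : R).2
    have hqi : IsIntegral ℤ ((p ^ (j + 1) : ℕ) : ℂ) := by
      have := isIntegral_algebraMap (R := ℤ) (A := ℂ) (x := ((p ^ (j + 1) : ℕ) : ℤ))
      simpa using this
    have hqC : ((p ^ (j + 1) : ℕ) : ℂ) ≠ 0 := by exact_mod_cast (pow_pos hp.pos _).ne'
    rw [isIntegral_div_iff _ _ hqC hB hqi]
    have h2 : (⟨aeval γ (D (p ^ (j + 1))) - aeval (σ γ) (D (p ^ j)), hB⟩ : R)
        = aeval x (D (p ^ (j + 1))) - aeval y (D (p ^ j)) := by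
      apply Subtype.ext
      show _ = ((aeval x (D (p ^ (j + 1))) - aeval y (D (p ^ j)) : R) : ℂ)
      rw [AddSubgroupClass.coe_sub, hcoe, hcoe]
    have h3 : (⟨((p ^ (j + 1) : ℕ) : ℂ), hqi⟩ : R) = (p : R) ^ (j + 1) := by
      apply Subtype.ext
      show ((p ^ (j + 1) : ℕ) : ℂ) = (((p : R) ^ (j + 1) : R) : ℂ)
      simp
    rw [h2, h3]
    exact h4

end Pool.Agent.MP1f45fc
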