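import Mathlib
import Pool.Agent.Lib.MP_1f45fc_nt.Frob2

set_option autoImplicit false

open Polynomial

namespace Pool.Agent.Results.MP_1f45fc_nt.FrobeniusCentral

/-- `β` is a Parry number: the orbit of `1` under `x ↦ fract (β * x)` is finite (that is, the
greedy `β`-expansion of `1` is finite or eventually periodic). -/
def IsParry (β : ℝ) : Prop :=
  (Set.range (fun k : ℕ => (fun x : ℝ => Int.fract (β * x))^[k] (1 : ℝ))).Finite

/-- `β` is a Perron number: a real algebraic integer `β > 1` all of whose other conjugates have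
modulus strictly less than `β`. -/
def IsPerron (β : ℝ) : Prop :=
  1 < β ∧ IsIntegral ℤ β ∧
    ∀ z : ℂ, aeval z (minpoly ℤ β) = 0 → z ≠ (β : ℂ) → ‖z‖ < β

/-- Let `β` be a Perron number such that `1/β` is a conjugate of `β`, put `γ = β + 1/β` and
`d = [ℚ(γ) : ℚ]`. Let `p` be a prime and `σ` a field endomorphism of `ℂ` with
`γ ^ p ≡ σ γ` modulo `p` in the ring of algebraic integers. If for some `j ≥ 0`, with
`q = p ^ (j + 1)` and `r = p ^ j`,
`(β^q + β^(-q) + 2) (β^r + β^(-r) + 2) 4^d < 16 q^d`, then `β ^ n` is a Parry number for only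
finitely many `n`. -/
theorem result (β : ℝ) (hβ : IsPerron β) (hrec : aeval (β⁻¹ : ℝ) (minpoly ℤ β) = 0)
    (p j : ℕ) (hp : p.Prime) (σ : ℂ →+* ℂ)
    (hfrob : IsIntegral ℤ ((((β + β⁻¹ : ℝ) : ℂ) ^ p - σ ((β + β⁻¹ : ℝ) : ℂ)) / (p : ℂ)))
    (hineq : (β ^ p ^ (j + 1) + (β ^ p ^ (j + 1))⁻¹ + 2) * (β ^ p ^ j + (β ^ p ^ j)⁻¹ + 2) *
      4 ^ (minpoly ℚ (β + β⁻¹)).natDegree
        < 16 * ((p : ℝ) ^ (j + 1)) ^ (minpoly ℚ (β + β⁻¹)).natDegree) :
    {n : ℕ | 1 ≤ n ∧ IsParry (β ^ n)}.Finite := by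
  by_contra hinf
  obtain ⟨h1, hint, hper⟩ := hβ
  have H := Pool.Agent.MP1f45fc.hyp2_of_infinite h1 hint hper hrec hinf
  have h := Pool.Agent.MP1f45fc.frobCentral_ineq H hp j σ hfrob
  unfold Pool.Agent.MP1f45fc.S at h
  linarith

end Pool.Agent.Results.MP_1f45fc_nt.FrobeniusCentral
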