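import Mathlib

set_option autoImplicit false

/-!
Hadamard's inequality for the Vandermonde determinant of a family of complex numbers closed
under inversion.
-/

namespace Pool.Agent.MP1f45fc

open Polynomial Finset Module

/-- Hadamard's inequality. -/
theorem hadamard {n : ℕ} (A : Matrix (Fin n) (Fin n) ℂ) :
    ‖A.det‖ ≤ ∏ i, Real.sqrt (∑ j, ‖A i j‖ ^ 2) := by
  classical
  let V := EuclideanSpace ℂ (Fin n)
  let f : Fin n → V := fun i => WithLp.toLp 2 (A i)
  have h : finrank ℂ V = Fintype.card (Fin n) := by simp [V]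
  let b := InnerProductSpace.gramSchmidtOrthonormalBasis h f
  let e : OrthonormalBasis (Fin n) ℂ V := EuclideanSpace.basisFun (Fin n) ℂ
  have h1 : (e.toBasis.toMatrix f) = A.transpose := by
    ext i j
    simp only [e, f, Basis.toMatrix_apply, OrthonormalBasis.coe_toBasis_repr_apply,
      Matrix.transpose_apply]
    rfl
  have h2 : A.det = e.toBasis.det b * b.toBasis.det f := by
    rw [← Matrix.det_transpose, ← h1, Basis.det_apply, Basis.det_apply, ← Matrix.det_mul]
    congr 1
    have := Basis.toMatrix_mul_toMatrix (b := e.toBasis) (b' := b.toBasis) (b'' := f)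
    rw [← this]
    simp
  rw [h2, norm_mul, OrthonormalBasis.det_to_matrix_orthonormalBasis, one_mul,
    InnerProductSpace.gramSchmidtOrthonormalBasis_det, norm_prod]
  apply Finset.prod_le_prod
  · intro i _
    exact norm_nonneg _
  · intro i _
    have h3 := norm_inner_le_norm (𝕜 := ℂ) (b i) (f i)
    rw [b.orthonormal.1 i, one_mul] at h3
    refine h3.trans (le_of_eq ?_)
    rw [EuclideanSpace.norm_eq]

/-- Product over ordered pairs of distinct indices. -/
noncomputable def pd {ι : Type*} [Fintype ι] (w : ι → ℂ) : ℝ := by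
  classical
  exact ∏ i, ∏ j, if j = i then 1 else ‖w i - w j‖

theorem pd_eq {ι : Type*} [Fintype ι] [DecidableEq ι] (w : ι → ℂ) :
    pd w = ∏ i, ∏ j, if j = i then 1 else ‖w i - w j‖ := by
  unfold pd
  apply Finset.prod_congr rfl
  intro i _
  apply Finset.prod_congr rfl
  intro j _
  congr

theorem pd_fin {n : ℕ} (w : Fin n → ℂ) : pd w = ‖(Matrix.vandermonde w).det‖ ^ 2 := by
  classical
  have h1 : ∀ i : Fin n, (∏ j, if j = i then 1 else ‖w i - w j‖) =
      (∏ j ∈ Ioi i, ‖w i - w j‖) * ∏ j ∈ Iio i, ‖w i - w j‖ := by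
    intro i
    rw [← Finset.prod_union]
    · rw [Finset.prod_ite, Finset.prod_const_one, one_mul]
      apply Finset.prod_congr _ (fun _ _ => rfl)
      ext j
      simp only [mem_filter, mem_univ, true_and, mem_union, mem_Ioi, mem_Iio]
      constructor
      · intro h
        rcases lt_or_gt_of_ne h with h | h
        · exact Or.inr h
        · exact Or.inl h
      · rintro (h | h)
        · exact ne_of_gt h
        · exact ne_of_lt h
    · rw [Finset.disjoint_left]
      intro j hj hj'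
      rw [mem_Ioi] at hj
      rw [mem_Iio] at hj'
      exact absurd hj (not_lt.mpr hj'.le)
  rw [pd_eq, Finset.prod_congr rfl (fun i _ => h1 i), Finset.prod_mul_distrib]
  have h2 : (∏ i : Fin n, ∏ j ∈ Iio i, ‖w i - w j‖) = ∏ i : Fin n, ∏ j ∈ Ioi i, ‖w i - w j‖ := by
    rw [Finset.prod_comm' (t' := univ) (s' := fun i => Ioi i)]
    · apply Finset.prod_congr rfl
      intro i _
      apply Finset.prod_congr rfl
      intro j _
      exact norm_sub_rev _ _
    · intro i j
      simp
  rw [h2, Matrix.det_vandermonde, norm_prod, sq]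
  have h3 : (∏ i : Fin n, ∏ j ∈ Ioi i, ‖w i - w j‖) = ∏ i : Fin n, ‖∏ j ∈ Ioi i, (w j - w i)‖ := by
    apply Finset.prod_congr rfl
    intro i _
    rw [norm_prod]
    apply Finset.prod_congr rfl
    intro j _
    exact norm_sub_rev _ _
  rw [h3]

theorem pd_le_fin {n : ℕ} (w : Fin n → ℂ) :
    pd w ≤ ∏ i, ∑ k ∈ range n, (‖w i‖ ^ 2) ^ k := by
  rw [pd_fin]
  have h := hadamard (Matrix.vandermonde w)
  have h2 : ‖(Matrix.vandermonde w).det‖ ^ 2 ≤
      (∏ i, Real.sqrt (∑ j, ‖(Matrix.vandermonde w) i j‖ ^ 2)) ^ 2 := by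
    gcongr
  refine h2.trans (le_of_eq ?_)
  rw [← Finset.prod_pow]
  apply Finset.prod_congr rfl
  intro i _
  rw [Real.sq_sqrt (Finset.sum_nonneg fun j _ => by positivity), Finset.sum_range]
  apply Finset.sum_congr rfl
  intro j _
  rw [Matrix.vandermonde_apply, norm_pow]
  ring

theorem pd_le {ι : Type*} [Fintype ι] (w : ι → ℂ) :
    pd w ≤ ∏ i, ∑ k ∈ range (Fintype.card ι), (‖w i‖ ^ 2) ^ k := by
  classical
  let e := Fintype.equivFin ι
  have h := pd_le_fin (fun i => w (e.symm i))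
  have h1 : pd (fun i => w (e.symm i)) = pd w := by
    rw [pd_eq, pd_eq, ← Equiv.prod_comp e.symm]
    apply Finset.prod_congr rfl
    intro i _
    rw [← Equiv.prod_comp e.symm]
    apply Finset.prod_congr rfl
    intro j _
    simp
  have h2 : (∏ i, ∑ k ∈ range (Fintype.card ι), (‖w (e.symm i)‖ ^ 2) ^ k) =
      ∏ i, ∑ k ∈ range (Fintype.card ι), (‖w i‖ ^ 2) ^ k :=
    Equiv.prod_comp e.symm (fun i => ∑ k ∈ range (Fintype.card ι), (‖w i‖ ^ 2) ^ k)
  rw [h1, h2] at h
  exact h

/-- The Vandermonde product of the doubled family, in terms of the traces. -/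
theorem pd_double {κ : Type*} [Fintype κ] [DecidableEq κ] (t z : κ → ℂ) (hz : ∀ a, z a ≠ 0)
    (ht : ∀ a, t a = z a + (z a)⁻¹) :
    (∏ a, ∏ b, if b = a then ‖t a ^ 2 - 4‖ else ‖t a - t b‖ ^ 2) =
      pd (fun q : κ × Bool => if q.2 then z q.1 else (z q.1)⁻¹) := by
  classical
  rw [pd_eq, Fintype.prod_prod_type]
  simp only [Fintype.prod_prod_type]
  apply Finset.prod_congr rfl
  intro a _
  rw [Finset.prod_comm]
  apply Finset.prod_congr rfl
  intro b _
  rw [Fintype.prod_bool, Fintype.prod_bool, Fintype.prod_bool]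
  by_cases hab : b = a
  · subst hab
    simp only [if_true, Prod.mk.injEq, true_and, Bool.false_eq_true, if_false, one_mul,
      Bool.true_eq_false, mul_one]
    rw [← norm_mul]
    have h0 := hz b
    have h1 : (z b - (z b)⁻¹) * ((z b)⁻¹ - z b) = -(t b ^ 2 - 4) := by
      rw [ht b]
      field_simp
      ring
    rw [h1, norm_neg]
  · have h2 : ∀ c d : Bool, ((b, c) = (a, d)) = False := by
      intro c d
      simp [hab]
    simp only [h2, if_false, if_true, Bool.false_eq_true]
    rw [if_neg hab, ← norm_pow, ← norm_mul, ← norm_mul, ← norm_mul]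
    congr 1
    have ha := hz a
    have hb := hz b
    rw [ht a, ht b]
    field_simp
    ring

theorem geom_two (m : ℕ) (ρ : ℝ) (hρ : 1 ≤ ρ) :
    (∑ k ∈ range (m + 1), (ρ ^ 2) ^ k) * (∑ k ∈ range (m + 1), ((ρ⁻¹) ^ 2) ^ k) ≤
      (((m : ℝ) + 1) * ρ ^ m) ^ 2 := by
  have hρ0 : 0 < ρ := by linarith
  have h1 : (∑ k ∈ range (m + 1), (ρ ^ 2) ^ k) ≤ ((m : ℝ) + 1) * (ρ ^ 2) ^ m := by
    calc (∑ k ∈ range (m + 1), (ρ ^ 2) ^ k) ≤ ∑ k ∈ range (m + 1), (ρ ^ 2) ^ m := by
          apply Finset.sum_le_sum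
          intro k hk
          rw [mem_range] at hk
          apply pow_le_pow_right₀
          · nlinarith
          · omega
      _ = ((m : ℝ) + 1) * (ρ ^ 2) ^ m := by
          rw [Finset.sum_const, card_range]
          simp
  have h2 : (∑ k ∈ range (m + 1), ((ρ⁻¹) ^ 2) ^ k) ≤ (m : ℝ) + 1 := by
    calc (∑ k ∈ range (m + 1), ((ρ⁻¹) ^ 2) ^ k) ≤ ∑ k ∈ range (m + 1), (1 : ℝ) := by
          apply Finset.sum_le_sum
          intro k _
          apply pow_le_one₀ (by positivity)
          apply pow_le_one₀ (by positivity)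
          exact inv_le_one_of_one_le₀ hρ
      _ = (m : ℝ) + 1 := by simp
  calc (∑ k ∈ range (m + 1), (ρ ^ 2) ^ k) * (∑ k ∈ range (m + 1), ((ρ⁻¹) ^ 2) ^ k) ≤
      (((m : ℝ) + 1) * (ρ ^ 2) ^ m) * ((m : ℝ) + 1) := by
        apply mul_le_mul h1 h2
        · positivity
        · positivity
    _ = (((m : ℝ) + 1) * ρ ^ m) ^ 2 := by ring

/-- The determinant bound. -/
theorem Q_le {κ : Type*} [Fintype κ] [DecidableEq κ] [Nonempty κ] (t : κ → ℂ) (x : κ → ℝ)
    (h : ∀ a, ∃ z : ℂ, z ≠ 0 ∧ t a = z + z⁻¹ ∧ ‖z‖ ≤ x a ∧ ‖z‖⁻¹ ≤ x a) :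
    (∏ a, ∏ b, if b = a then ‖t a ^ 2 - 4‖ else ‖t a - t b‖ ^ 2) ≤
      ∏ a, ((2 * Fintype.card κ : ℕ) * x a ^ (2 * Fintype.card κ - 1)) ^ 2 := by
  choose z hz ht h1 h2 using h
  rw [pd_double t z hz ht]
  refine (pd_le _).trans ?_
  rw [Fintype.prod_prod_type]
  apply Finset.prod_le_prod
  · intro a _
    positivity
  · intro a _
    rw [Fintype.prod_bool]
    have hcard : Fintype.card (κ × Bool) = (2 * Fintype.card κ - 1) + 1 := by
      rw [Fintype.card_prod, Fintype.card_bool]
      have : 0 < Fintype.card κ := Fintype.card_pos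
      omega
    have hcard2 : ((2 * Fintype.card κ : ℕ) : ℝ) = ((2 * Fintype.card κ - 1 : ℕ) : ℝ) + 1 := by
      have : 0 < Fintype.card κ := Fintype.card_pos
      have h3 : 2 * Fintype.card κ = (2 * Fintype.card κ - 1) + 1 := by omega
      exact_mod_cast h3
    rw [hcard, hcard2]
    simp only [if_true, Bool.false_eq_true, if_false, norm_inv]
    set m := 2 * Fintype.card κ - 1
    have hz0 : 0 < ‖z a‖ := norm_pos_iff.mpr (hz a)
    rcases le_total 1 ‖z a‖ with hle | hle
    · refine (geom_two m _ hle).trans ?_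
      have := h1 a
      gcongr
    · have hle' : 1 ≤ ‖z a‖⁻¹ := (one_le_inv₀ hz0).mpr hle
      have h4 := geom_two m _ hle'
      rw [inv_inv] at h4
      rw [mul_comm]
      refine h4.trans ?_
      have := h2 a
      gcongr

end Pool.Agent.MP1f45fc
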