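import Mathlib
import Pool.Agent.Lib.MP_1f45fc_nt.RelDet
import Pool.Agent.Lib.MP_1f45fc_nt.Frob2

set_option autoImplicit false

/-!
The determinant inequality for two sets of conjugates.
-/

namespace Pool.Agent.MP1f45fc

open Polynomial

/-- The weight: `s` at the exceptional value, `1` elsewhere. -/
noncomputable def wr (g s : ℝ) (y : ℂ) : ℝ := by
  classical
  exact if y = (g : ℂ) then s else 1

theorem wr_pos (g s : ℝ) (hs : 0 < s) (y : ℂ) : 0 < wr g s y := by
  unfold wr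
  split_ifs
  · exact hs
  · norm_num

theorem prod_wr {N : Type} [Field N] [NumberField N] (x : N) (g s : ℝ)
    (hg : aeval (g : ℂ) (minpoly ℚ x) = 0) :
    ∏ φ : N →ₐ[ℚ] ℂ, wr g s (φ x) =
      s ^ Module.finrank (IntermediateField.adjoin ℚ {x}) N := by
  classical
  unfold wr
  rw [Finset.prod_ite, Finset.prod_const_one, mul_one, Finset.prod_const]
  congr 1
  rw [← card_fiber x (g : ℂ) hg, Nat.card_eq_fintype_card, Fintype.card_subtype]

theorem good_z {β : ℝ} (hβ : 1 < β) (m : ℕ) {y : ℂ} (hy : Good (β + β⁻¹) y) :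
    ∃ z : ℂ, z ≠ 0 ∧ aeval y (D m) = z + z⁻¹ ∧ ‖z‖ ≤ wr (β + β⁻¹) (β ^ m) y ∧
      ‖z‖⁻¹ ≤ wr (β + β⁻¹) (β ^ m) y := by
  have hβ0 : β ≠ 0 := by positivity
  have hβm : 1 ≤ β ^ m := one_le_pow₀ hβ.le
  by_cases h1 : y = ((β + β⁻¹ : ℝ) : ℂ)
  · have e1 : wr (β + β⁻¹) (β ^ m) y = β ^ m := by unfold wr; rw [if_pos h1]
    rw [e1]
    refine ⟨((β ^ m : ℝ) : ℂ), ?_, ?_, ?_, ?_⟩
    · exact_mod_cast pow_ne_zero m hβ0
    · rw [h1, aeval_D_gamma hβ0, S]
      push_cast
      ring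
    · rw [Complex.norm_real, Real.norm_eq_abs, abs_of_pos (by linarith)]
    · rw [Complex.norm_real, Real.norm_eq_abs, abs_of_pos (by linarith)]
      exact (inv_le_one_of_one_le₀ hβm).trans hβm
  · have e1 : wr (β + β⁻¹) (β ^ m) y = 1 := by unfold wr; rw [if_neg h1]
    rw [e1]
    rcases hy with h | ⟨t, ht, h⟩
    · exact absurd h h1
    have h2 : (t / 2) ^ 2 ≤ 1 := by
      have := abs_le.1 ht
      nlinarith
    set z : ℂ := ⟨t / 2, Real.sqrt (1 - (t / 2) ^ 2)⟩ with hz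
    have hz2 : z * (starRingEnd ℂ) z = 1 := by
      rw [Complex.mul_conj, Complex.normSq_apply]
      simp only [hz]
      have : Real.sqrt (1 - (t / 2) ^ 2) * Real.sqrt (1 - (t / 2) ^ 2) = 1 - (t / 2) ^ 2 :=
        Real.mul_self_sqrt (by linarith)
      rw [this]
      norm_cast
      ring
    have hzn : ‖z‖ = 1 := by
      have h2 := hz2
      rw [Complex.mul_conj, Complex.normSq_eq_norm_sq] at h2
      have h3 : ‖z‖ ^ 2 = 1 := by exact_mod_cast h2
      have h4 : 0 ≤ ‖z‖ := norm_nonneg z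
      nlinarith
    have hz0 : z ≠ 0 := by
      intro h0
      rw [h0, norm_zero] at hzn
      exact zero_ne_one hzn
    have hsum : (t : ℂ) = z + (starRingEnd ℂ) z := by
      rw [Complex.add_conj]
      simp only [hz]
      push_cast
      ring
    refine ⟨z ^ m, pow_ne_zero m hz0, ?_, ?_, ?_⟩
    · rw [h, hsum, aeval_D_add_inv m z _ hz2]
      congr 1
      rw [← inv_pow]
      congr 1
      exact eq_inv_of_mul_eq_one_right hz2
    · rw [norm_pow, hzn, one_pow]
    · rw [norm_pow, hzn, one_pow, inv_one]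

theorem norm_D_gamma {β : ℝ} (hβ : 1 < β) {m : ℕ} (hm : m ≠ 0) :
    ‖aeval ((β + β⁻¹ : ℝ) : ℂ) (D m)‖ = S β m := by
  rw [aeval_D_gamma (by positivity), Complex.norm_real, Real.norm_eq_abs,
    abs_of_pos (by linarith [two_lt_S hβ hm])]

theorem norm_D_good {β : ℝ} {m : ℕ} {y : ℂ} (hy : Good (β + β⁻¹) y)
    (h : y ≠ ((β + β⁻¹ : ℝ) : ℂ)) : ‖aeval y (D m)‖ ≤ 2 := by
  rcases hy with h' | ⟨t, ht, h'⟩
  · exact absurd h' h
  · rw [h']
    exact norm_D_le ht m

theorem conj_data {β : ℝ} (H : Hyp2 β) {N : Type} [Field N] [NumberField N] (φ0 : N →+* ℂ)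
    (u : N) (hu : aeval (φ0 u) (minpoly ℚ (β + β⁻¹)) = 0) :
    minpoly ℚ u = minpoly ℚ (β + β⁻¹) ∧ (∃ ψ : N →ₐ[ℚ] ℂ, ψ u = ((β + β⁻¹ : ℝ) : ℂ)) ∧
      ∀ φ : N →+* ℂ, Good (β + β⁻¹) (φ u) := by
  set γ : ℂ := ((β + β⁻¹ : ℝ) : ℂ) with hγ
  have hγint : IsIntegral ℤ γ :=
    (H.integral.add H.inv_integral).map (algebraMap ℝ ℂ).toIntAlgHom
  have hPγ : minpoly ℚ γ = minpoly ℚ (β + β⁻¹) :=
    minpoly.algebraMap_eq (algebraMap ℝ ℂ).injective (β + β⁻¹)
  have h0 : minpoly ℚ (φ0 u) = minpoly ℚ u :=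
    minpoly.algHom_eq φ0.toRatAlgHom φ0.injective u
  have h1 : minpoly ℚ u = minpoly ℚ (β + β⁻¹) := by
    rw [← h0]
    symm
    apply minpoly.eq_of_irreducible_of_monic
    · rw [← hPγ]
      exact minpoly.irreducible hγint.tower_top
    · exact hu
    · rw [← hPγ]
      exact minpoly.monic hγint.tower_top
  have h2 : aeval γ (minpoly ℚ u) = 0 := by
    rw [h1, ← hPγ]
    exact minpoly.aeval ℚ γ
  have h3 : ∃ ψ : N →ₐ[ℚ] ℂ, ψ u = γ := by
    have h4 := card_fiber u γ h2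
    have h5 : 0 < Nat.card {φ : N →ₐ[ℚ] ℂ // φ u = γ} := by
      rw [h4]
      exact Module.finrank_pos
    obtain ⟨⟨ψ, hψ⟩⟩ := (Nat.card_pos_iff.1 h5).1
    exact ⟨ψ, hψ⟩
  refine ⟨h1, h3, ?_⟩
  intro φ
  obtain ⟨ψ, hψ⟩ := h3
  exact good_embedding H (φ0 := ψ.toRingHom) hψ φ

theorem root_integral {β : ℝ} (H : Hyp2 β) {z : ℂ}
    (hz : aeval z (minpoly ℚ (β + β⁻¹)) = 0) : IsIntegral ℤ z := by
  have hγint : IsIntegral ℤ (β + β⁻¹) := H.integral.add H.inv_integral
  have h1 := minpoly.isIntegrallyClosed_eq_field_fractions' ℚ hγint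
  rw [h1, aeval_map_algebraMap] at hz
  exact ⟨_, minpoly.monic hγint, by rwa [← aeval_def]⟩

/-- The factors of the discriminant-like product. -/
def Fac {N κ : Type} [Field N] [DecidableEq κ] (T : κ → N) (a b : κ) : N :=
  if b = a then T a ^ 2 - 4 else (T a - T b) ^ 2

theorem prod_Fac {N ι₁ ι₂ : Type} [Field N] [Fintype ι₁] [Fintype ι₂] [DecidableEq ι₁]
    [DecidableEq ι₂] (T : ι₁ ⊕ ι₂ → N) :
    ∏ a, ∏ b, Fac T a b = (∏ i, ∏ j, (T (Sum.inl i) - T (Sum.inr j))) ^ 4 *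
      ((∏ i : ι₁, ∏ i' : ι₁, Fac T (Sum.inl i) (Sum.inl i')) *
        ∏ j : ι₂, ∏ j' : ι₂, Fac T (Sum.inr j) (Sum.inr j')) := by
  have h1 : ∀ i j, Fac T (Sum.inl i) (Sum.inr j) = (T (Sum.inl i) - T (Sum.inr j)) ^ 2 := by
    intro i j
    unfold Fac
    rw [if_neg (by simp)]
  have h2 : ∀ i j, Fac T (Sum.inr j) (Sum.inl i) = (T (Sum.inl i) - T (Sum.inr j)) ^ 2 := by
    intro i j
    unfold Fac
    rw [if_neg (by simp)]
    ring
  simp only [Fintype.prod_sum_type, Finset.prod_mul_distrib, h1, h2]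
  have h3 : (∏ j, ∏ i, (T (Sum.inl i) - T (Sum.inr j)) ^ 2) =
      ∏ i, ∏ j, (T (Sum.inl i) - T (Sum.inr j)) ^ 2 := Finset.prod_comm
  rw [h3]
  have h4 : (∏ i, ∏ j, (T (Sum.inl i) - T (Sum.inr j)) ^ 2) =
      (∏ i, ∏ j, (T (Sum.inl i) - T (Sum.inr j))) ^ 2 := by
    simp only [Finset.prod_pow]
  rw [h4]
  ring

theorem Fac_integral {N κ : Type} [Field N] [DecidableEq κ] {T : κ → N}
    (hT : ∀ a, IsIntegral ℤ (T a)) (a b : κ) : IsIntegral ℤ (Fac T a b) := by
  unfold Fac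
  split_ifs
  · refine ((hT a).pow 2).sub ?_
    have := isIntegral_algebraMap (R := ℤ) (A := N) (x := 4)
    simpa using this
  · exact ((hT a).sub (hT b)).pow 2

theorem rel_master {β : ℝ} (H : Hyp2 β) {ι₁ ι₂ : Type} [Fintype ι₁] [Fintype ι₂]
    {c l m Q : ℕ} (hc : 0 < c) (hc1 : Fintype.card ι₁ = c) (hc2 : Fintype.card ι₂ = c)
    (x : ι₁ → ℂ) (y : ι₂ → ℂ) (hxi : Function.Injective x) (hyi : Function.Injective y)
    (hx : ∀ i, aeval (x i) (minpoly ℚ (β + β⁻¹)) = 0)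
    (hy : ∀ j, aeval (y j) (minpoly ℚ (β + β⁻¹)) = 0)
    (hl : l ≠ 0) (hlm : l ≤ m) (hxy : l = m → ∀ i j, x i ≠ y j) (hQ : 0 < Q)
    (hint : IsIntegral ℤ
      ((∏ i, ∏ j, (aeval (x i) (D m) - aeval (y j) (D l))) / (Q : ℂ) ^ c)) :
    (Q : ℝ) ^ (2 * (minpoly ℚ (β + β⁻¹)).natDegree) ≤
      ((4 * c : ℕ) : ℝ) ^ (2 * (minpoly ℚ (β + β⁻¹)).natDegree) *
        β ^ ((4 * c - 1) * (m + l)) := by
  classical
  have hβ1 := H.one_lt
  have hβ0 : β ≠ 0 := by positivity
  have hm : m ≠ 0 := by omega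
  set γ : ℂ := ((β + β⁻¹ : ℝ) : ℂ) with hγ
  have hxint : ∀ i, IsIntegral ℤ (x i) := fun i => root_integral H (hx i)
  have hyint : ∀ j, IsIntegral ℤ (y j) := fun j => root_integral H (hy j)
  -- the number field
  let T : Finset ℂ := Finset.univ.image x ∪ Finset.univ.image y
  let N := IntermediateField.adjoin ℚ (T : Set ℂ)
  have hfd : FiniteDimensional ℚ N := by
    apply IntermediateField.finiteDimensional_adjoin
    intro z hz
    rcases Finset.mem_union.1 hz with h | h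
    · obtain ⟨i, _, rfl⟩ := Finset.mem_image.1 h
      exact (hxint i).tower_top
    · obtain ⟨i, _, rfl⟩ := Finset.mem_image.1 h
      exact (hyint i).tower_top
  have hnf : NumberField N := { }
  have hxN : ∀ i, x i ∈ N := fun i => IntermediateField.subset_adjoin ℚ _
    (Finset.mem_union_left _ (Finset.mem_image_of_mem _ (Finset.mem_univ i)))
  have hyN : ∀ j, y j ∈ N := fun j => IntermediateField.subset_adjoin ℚ _
    (Finset.mem_union_right _ (Finset.mem_image_of_mem _ (Finset.mem_univ j)))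
  let X : ι₁ → N := fun i => ⟨x i, hxN i⟩
  let Y : ι₂ → N := fun j => ⟨y j, hyN j⟩
  let φ0 : N →+* ℂ := algebraMap N ℂ
  have hX0 : ∀ i, φ0 (X i) = x i := fun i => rfl
  have hY0 : ∀ j, φ0 (Y j) = y j := fun j => rfl
  have hXd := fun i => conj_data H φ0 (X i) (hx i)
  have hYd := fun j => conj_data H φ0 (Y j) (hy j)
  let V : ι₁ ⊕ ι₂ → N := Sum.elim (fun i => aeval (X i) (D m)) (fun j => aeval (Y j) (D l))
  have eD : ∀ (φ : N →+* ℂ) (u : N) (P : ℤ[X]), φ (aeval u P) = aeval (φ u) P :=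
    fun φ u P => map_aeval_int φ u P
  -- integrality
  have down : ∀ u : N, IsIntegral ℤ (φ0 u) → IsIntegral ℤ u := by
    intro u h2
    exact (isIntegral_algHom_iff φ0.toIntAlgHom φ0.injective).1 h2
  have hXint : ∀ i, IsIntegral ℤ (X i) := fun i => down _ (hxint i)
  have hYint : ∀ j, IsIntegral ℤ (Y j) := fun j => down _ (hyint j)
  have haev : ∀ (u : N) (P : ℤ[X]), IsIntegral ℤ u → IsIntegral ℤ (aeval u P) := by
    intro u P hu
    have : aeval u P ∈ Algebra.adjoin ℤ {u} := by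
      rw [Algebra.adjoin_singleton_eq_range_aeval]
      exact ⟨P, rfl⟩
    exact (IsIntegral.of_mem_of_fg (Algebra.adjoin ℤ {u}) hu.fg_adjoin_singleton _ this)
  have hVint : ∀ a, IsIntegral ℤ (V a) := by
    rintro (i | j)
    · exact haev _ _ (hXint i)
    · exact haev _ _ (hYint j)
  let Res : N := ∏ i, ∏ j, (V (Sum.inl i) - V (Sum.inr j))
  let B : N := (∏ i : ι₁, ∏ i' : ι₁, Fac V (Sum.inl i) (Sum.inl i')) *
        ∏ j : ι₂, ∏ j' : ι₂, Fac V (Sum.inr j) (Sum.inr j')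
  have hB : IsIntegral ℤ B := by
    apply IsIntegral.mul
    · exact IsIntegral.prod _ fun i _ => IsIntegral.prod _ fun j _ => Fac_integral hVint _ _
    · exact IsIntegral.prod _ fun i _ => IsIntegral.prod _ fun j _ => Fac_integral hVint _ _
  have hRes : IsIntegral ℤ (Res / (Q : N) ^ c) := by
    apply down
    have : φ0 (Res / (Q : N) ^ c) =
        (∏ i, ∏ j, (aeval (x i) (D m) - aeval (y j) (D l))) / (Q : ℂ) ^ c := by
      simp only [Res, V, Sum.elim_inl, Sum.elim_inr, map_div₀, map_prod, map_sub, map_pow,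
        map_natCast, eD, hX0, hY0]
    rw [this]
    exact hint
  let Θ : N := (∏ a, ∏ b, Fac V a b) / (Q : N) ^ (4 * c)
  have hQN : (Q : N) ≠ 0 := by exact_mod_cast hQ.ne'
  have hΘ1 : Θ = (Res / (Q : N) ^ c) ^ 4 * B := by
    simp only [Θ]
    rw [prod_Fac]
    have e1 : (Q : N) ^ (4 * c) = ((Q : N) ^ c) ^ 4 := by rw [← pow_mul, mul_comm]
    rw [e1, div_pow]
    simp only [Res, B]
    ring
  have hΘint : IsIntegral ℤ Θ := by
    rw [hΘ1]
    exact (hRes.pow 4).mul hB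
  -- nonvanishing
  have hbig : ∀ {n : ℕ}, n ≠ 0 → ∀ {u : ℂ}, u = γ → ‖aeval u (D n)‖ = S β n := by
    intro n hn u hu
    rw [hu]
    exact norm_D_gamma hβ1 hn
  have hFne : ∀ a b, Fac V a b ≠ 0 := by
    have key1 : ∀ {u : N} {n : ℕ}, n ≠ 0 → (∃ ψ : N →ₐ[ℚ] ℂ, ψ u = γ) →
        (aeval u (D n)) ^ 2 - 4 ≠ 0 := by
      rintro u n hn ⟨ψ, hψ⟩ h
      have h1 := congrArg ψ.toRingHom h
      have h4 : ψ.toRingHom 4 = 4 := map_ofNat ψ.toRingHom 4
      rw [map_sub, map_pow, eD, map_zero, sub_eq_zero, h4] at h1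
      have h2 := congrArg norm h1
      rw [norm_pow, hbig hn (show ψ.toRingHom u = γ from hψ)] at h2
      have h3 := two_lt_S hβ1 hn
      have h5 : ‖(4 : ℂ)‖ = 4 := by simp
      rw [h5] at h2
      nlinarith
    have key2 : ∀ {u v : N} {n n' : ℕ}, n' ≠ 0 → n' ≤ n → (∃ ψ : N →ₐ[ℚ] ℂ, ψ u = γ) →
        (∀ φ : N →+* ℂ, Good (β + β⁻¹) (φ v)) → (n' = n → u ≠ v) →
        (aeval u (D n) - aeval v (D n')) ^ 2 ≠ 0 := by
      rintro u v n n' hn' hnn ⟨ψ, hψ⟩ hv huv h
      have hn : n ≠ 0 := by omega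
      have h1 := congrArg ψ.toRingHom (sub_eq_zero.1 (pow_eq_zero_iff (two_ne_zero)|>.1 h))
      rw [eD, eD] at h1
      have h2 := congrArg norm h1
      rw [hbig hn (show ψ.toRingHom u = γ from hψ)] at h2
      have h3 := two_lt_S hβ1 hn
      by_cases hvg : ψ.toRingHom v = γ
      · rw [hbig hn' hvg] at h2
        rcases hnn.lt_or_eq with hlt | heq
        · have := S_lt_S hβ1 hlt
          linarith
        · exact huv heq (ψ.toRingHom.injective ((show ψ.toRingHom u = γ from hψ).trans hvg.symm))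
      · have := norm_D_good (m := n') (hv ψ.toRingHom) hvg
        linarith
    intro a b
    unfold Fac
    split_ifs with hba
    · rcases a with i | j
      · exact key1 hm (hXd i).2.1
      · exact key1 hl (hYd j).2.1
    · rcases a with i | j
      · rcases b with i' | j'
        · refine key2 hm le_rfl (hXd i).2.1 (hXd i').2.2 ?_
          intro _ h
          apply hba
          have : x i = x i' := congrArg Subtype.val h
          rw [hxi this]
        · refine key2 hl hlm (hXd i).2.1 (hYd j').2.2 ?_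
          intro hh h
          exact hxy hh i j' (congrArg Subtype.val h)
      · rcases b with i' | j'
        · have e : V (Sum.inr j) - V (Sum.inl i') = -(V (Sum.inl i') - V (Sum.inr j)) := by ring
          rw [e, neg_sq]
          refine key2 hl hlm (hXd i').2.1 (hYd j).2.2 ?_
          intro hh h
          exact hxy hh i' j (congrArg Subtype.val h)
        · refine key2 hl le_rfl (hYd j).2.1 (hYd j').2.2 ?_
          intro _ h
          apply hba
          have : y j = y j' := congrArg Subtype.val h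
          rw [hyi this]
  have hΘne : Θ ≠ 0 := by
    simp only [Θ]
    apply div_ne_zero
    · rw [Finset.prod_ne_zero_iff]
      intro a _
      rw [Finset.prod_ne_zero_iff]
      intro b _
      exact hFne a b
    · exact pow_ne_zero _ hQN
  -- the norm of `Θ` is a nonzero integer
  have hnorm : 1 ≤ ∏ φ : N →ₐ[ℚ] ℂ, ‖φ Θ‖ := by
    have h1 : IsIntegral ℤ (Algebra.norm ℚ Θ) := Algebra.isIntegral_norm ℚ hΘint
    obtain ⟨z, hz⟩ := IsIntegrallyClosed.isIntegral_iff.1 h1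
    have h2 : Algebra.norm ℚ Θ ≠ 0 := by
      rw [Ne, Algebra.norm_eq_zero_iff]
      exact hΘne
    have hz0 : z ≠ 0 := by
      intro h
      rw [h, map_zero] at hz
      exact h2 hz.symm
    have h3 := Algebra.norm_eq_prod_embeddings ℚ ℂ Θ
    rw [← hz] at h3
    have h4 := congrArg norm h3
    rw [norm_prod] at h4
    rw [← h4]
    have h5 : ‖(algebraMap ℚ ℂ) ((algebraMap ℤ ℚ) z)‖ = |(z : ℝ)| := by
      simp [Complex.norm_intCast]
    rw [h5]
    have h6 : 1 ≤ |z| := Int.one_le_abs hz0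
    exact_mod_cast h6
  -- upper bound
  set g := β + β⁻¹ with hg
  set d := (minpoly ℚ g).natDegree with hd
  let W : ι₁ ⊕ ι₂ → (N →ₐ[ℚ] ℂ) → ℝ := fun a φ => Sum.elim
    (fun i => wr g (β ^ m) (φ (X i))) (fun j => wr g (β ^ l) (φ (Y j))) a
  have hcardκ : Fintype.card (ι₁ ⊕ ι₂) = 2 * c := by
    rw [Fintype.card_sum, hc1, hc2]
    ring
  have hne : Nonempty (ι₁ ⊕ ι₂) := by
    apply Fintype.card_pos_iff.1
    omega
  have hupper : ∏ φ : N →ₐ[ℚ] ℂ, ‖φ Θ‖ ≤ ∏ φ : N →ₐ[ℚ] ℂ,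
      ((∏ a, (((4 * c : ℕ) : ℝ) * W a φ ^ (4 * c - 1)) ^ 2) / (Q : ℝ) ^ (4 * c)) := by
    apply Finset.prod_le_prod
    · intro φ _
      exact norm_nonneg _
    · intro φ _
      have e4 : φ 4 = 4 := map_ofNat φ 4
      have e2 : ‖φ Θ‖ = (∏ a, ∏ b, if b = a then ‖φ (V a) ^ 2 - 4‖
          else ‖φ (V a) - φ (V b)‖ ^ 2) / (Q : ℝ) ^ (4 * c) := by
        simp only [Θ]
        rw [map_div₀, norm_div, map_prod, norm_prod, map_pow, norm_pow, map_natCast,
          Complex.norm_natCast]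
        congr 1
        apply Finset.prod_congr rfl
        intro a _
        rw [map_prod, norm_prod]
        apply Finset.prod_congr rfl
        intro b _
        unfold Fac
        split_ifs
        · rw [map_sub, map_pow, e4]
        · rw [map_pow, map_sub, norm_pow]
      rw [e2]
      have e3 := Q_le (fun a => φ (V a)) (fun a => W a φ) (by
        rintro (i | j)
        · have h1 := good_z hβ1 m ((hXd i).2.2 φ.toRingHom)
          have h2 : φ (V (Sum.inl i)) = aeval (φ (X i)) (D m) := eD φ.toRingHom (X i) (D m)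
          rw [h2]
          exact h1
        · have h1 := good_z hβ1 l ((hYd j).2.2 φ.toRingHom)
          have h2 : φ (V (Sum.inr j)) = aeval (φ (Y j)) (D l) := eD φ.toRingHom (Y j) (D l)
          rw [h2]
          exact h1)
      rw [hcardκ] at e3
      have e5 : 2 * (2 * c) = 4 * c := by ring
      rw [e5] at e3
      gcongr
  -- count
  set n := Fintype.card (N →ₐ[ℚ] ℂ) with hn
  have hrX : ∀ i, d * Module.finrank (IntermediateField.adjoin ℚ {X i}) N = n := by
    intro i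
    rw [hn, AlgHom.card ℚ N ℂ, hd, ← (hXd i).1,
      ← IntermediateField.adjoin.finrank (Algebra.IsIntegral.isIntegral (X i) :
        IsIntegral ℚ (X i))]
    exact Module.finrank_mul_finrank ℚ (IntermediateField.adjoin ℚ {X i}) N
  have hrY : ∀ j, d * Module.finrank (IntermediateField.adjoin ℚ {Y j}) N = n := by
    intro j
    rw [hn, AlgHom.card ℚ N ℂ, hd, ← (hYd j).1,
      ← IntermediateField.adjoin.finrank (Algebra.IsIntegral.isIntegral (Y j) :
        IsIntegral ℚ (Y j))]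
    exact Module.finrank_mul_finrank ℚ (IntermediateField.adjoin ℚ {Y j}) N
  have hι1 : Nonempty ι₁ := Fintype.card_pos_iff.1 (by omega)
  obtain ⟨i0⟩ := hι1
  set r := Module.finrank (IntermediateField.adjoin ℚ {X i0}) N with hr
  have hrpos : 0 < r := Module.finrank_pos
  have hnpos : 0 < n := by
    rw [hn, AlgHom.card ℚ N ℂ]
    exact Module.finrank_pos
  have hdr : d * r = n := hrX i0
  have hdpos : 0 < d := by
    rcases Nat.eq_zero_or_pos d with h | h
    · rw [h, zero_mul] at hdr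
      omega
    · exact h
  have hrX' : ∀ i, Module.finrank (IntermediateField.adjoin ℚ {X i}) N = r := fun i =>
    Nat.eq_of_mul_eq_mul_left hdpos ((hrX i).trans hdr.symm)
  have hrY' : ∀ j, Module.finrank (IntermediateField.adjoin ℚ {Y j}) N = r := fun j =>
    Nat.eq_of_mul_eq_mul_left hdpos ((hrY j).trans hdr.symm)
  have hγroot : aeval (g : ℂ) (minpoly ℚ g) = 0 := by
    have h1 : minpoly ℚ γ = minpoly ℚ g :=
      minpoly.algebraMap_eq (algebraMap ℝ ℂ).injective g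
    rw [← h1]
    exact minpoly.aeval ℚ γ
  have hWX : ∀ i, ∏ φ : N →ₐ[ℚ] ℂ, W (Sum.inl i) φ = (β ^ m) ^ r := by
    intro i
    rw [← hrX' i]
    exact prod_wr (X i) g (β ^ m) (by rw [(hXd i).1]; exact hγroot)
  have hWY : ∀ j, ∏ φ : N →ₐ[ℚ] ℂ, W (Sum.inr j) φ = (β ^ l) ^ r := by
    intro j
    rw [← hrY' j]
    exact prod_wr (Y j) g (β ^ l) (by rw [(hYd j).1]; exact hγroot)
  have hval : ∏ φ : N →ₐ[ℚ] ℂ,
      ((∏ a, (((4 * c : ℕ) : ℝ) * W a φ ^ (4 * c - 1)) ^ 2) / (Q : ℝ) ^ (4 * c)) =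
      ((((4 * c : ℕ) : ℝ) ^ (2 * d) * β ^ ((4 * c - 1) * (m + l))) / (Q : ℝ) ^ (2 * d)) ^
        (2 * c * r) := by
    rw [Finset.prod_div_distrib, Finset.prod_const, Finset.card_univ, ← hn, Finset.prod_comm,
      Fintype.prod_sum_type]
    simp only [Finset.prod_pow, Finset.prod_mul_distrib, Finset.prod_const, Finset.card_univ,
      hWX, hWY, ← hn, hc1, hc2]
    rw [← hdr, div_pow]
    congr 1
    · rw [mul_pow]
      ring
    · rw [← pow_mul, ← pow_mul]
      congr 1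
      ring
  have hfin := hnorm.trans (hupper.trans hval.le)
  have hbase : 1 ≤ ((((4 * c : ℕ) : ℝ) ^ (2 * d) * β ^ ((4 * c - 1) * (m + l))) /
      (Q : ℝ) ^ (2 * d)) := by
    by_contra hcon
    push Not at hcon
    have h0 : 0 ≤ ((((4 * c : ℕ) : ℝ) ^ (2 * d) * β ^ ((4 * c - 1) * (m + l))) /
      (Q : ℝ) ^ (2 * d)) := by
      positivity
    have := pow_lt_one₀ h0 hcon (n := 2 * c * r) (by positivity)
    linarith
  have hQd : 0 < (Q : ℝ) ^ (2 * d) := by positivity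
  rw [le_div_iff₀ hQd, one_mul] at hbase
  exact hbase

end Pool.Agent.MP1f45fc
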