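import Mathlib
import Pool.Agent.Lib.MP_1f45fc_nt.RelMaster

set_option autoImplicit false

/-!
Frobenius congruences for polynomials over cyclotomic fields.
-/

namespace Pool.Agent.MP1f45fc

open Polynomial

theorem mv_frob {p : ℕ} (hp : p.Prime) (G : MvPolynomial (Fin 2) ℤ) :
    ∃ U : MvPolynomial (Fin 2) ℤ, G ^ p = MvPolynomial.expand p G +
      MvPolynomial.C (p : ℤ) * U := by
  have : Fact p.Prime := ⟨hp⟩
  have h : MvPolynomial.C (p : ℤ) ∣ G ^ p - MvPolynomial.expand p G := by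
    rw [MvPolynomial.C_dvd_iff_zmod, map_sub, map_pow, MvPolynomial.map_expand,
      MvPolynomial.expand_zmod, sub_self]
  obtain ⟨U, hU⟩ := h
  exact ⟨U, by rw [← hU]; ring⟩

section quot

variable {R : Type*} [CommRing R] {p : ℕ} (hp : p.Prime)

/-- evaluation of a polynomial in two variables -/
noncomputable def ev (G : MvPolynomial (Fin 2) ℤ) (a b : R) : R := MvPolynomial.aeval ![a, b] G

include hp in
theorem ev_frob (G : MvPolynomial (Fin 2) ℤ) (a b : R) :
    (p : R) ∣ ev G a b ^ p - ev G (a ^ p) (b ^ p) := by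
  obtain ⟨U, hU⟩ := mv_frob hp G
  refine ⟨ev U a b, ?_⟩
  have h := congrArg (fun P => MvPolynomial.aeval (R := ℤ) ![a, b] P) hU
  simp only [map_pow, map_add, map_mul, MvPolynomial.aeval_expand] at h
  have h2 : (![a, b] ^ p : Fin 2 → R) = ![a ^ p, b ^ p] := by
    ext i
    fin_cases i <;> simp
  have h3 : MvPolynomial.aeval (R := ℤ) ![a, b] (MvPolynomial.C (p : ℤ)) = (p : R) := by
    rw [MvPolynomial.aeval_C]
    simp
  rw [h2, h3] at h
  unfold ev
  rw [h]
  ring

include hp in
theorem D_congr (a : R) : (p : R) ∣ aeval a (D p) - a ^ p := by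
  obtain ⟨E, hE⟩ := exists_D_prime p hp
  refine ⟨aeval a E, ?_⟩
  rw [hE]
  simp

include hp in
theorem sub_pow_quot {S : Type*} [CommRing S] (h0 : (p : S) = 0) (a b : S) :
    (a - b) ^ p = a ^ p - b ^ p := by
  obtain ⟨r, hr⟩ := exists_add_pow_prime_eq hp (a - b) b
  rw [sub_add_cancel, h0] at hr
  rw [hr]
  ring

include hp in
theorem arith_unram (G : MvPolynomial (Fin 2) ℤ) {ι : Type*} [Fintype ι] (z x : R) (y : ι → R)
    (hx : ev G z x = 0) (hy : ∀ w, ev G (z ^ p) w = ∏ j, (w - y j)) :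
    (p : R) ∣ ∏ j, (aeval x (D p) - aeval (y j) (D 1)) := by
  rw [← Ideal.mem_span_singleton, ← Ideal.Quotient.eq_zero_iff_mem]
  set π := Ideal.Quotient.mk (Ideal.span {(p : R)}) with hπ
  have e1 : π (aeval x (D p)) = π (x ^ p) := by
    rw [hπ, Ideal.Quotient.eq, Ideal.mem_span_singleton]
    exact D_congr hp x
  have e2 : π (∏ j, (aeval x (D p) - aeval (y j) (D 1))) = π (∏ j, (x ^ p - y j)) := by
    rw [map_prod, map_prod]
    apply Finset.prod_congr rfl
    intro j _
    rw [map_sub, map_sub, e1, D_one, aeval_X]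
  rw [e2, ← hy, hπ, Ideal.Quotient.eq_zero_iff_mem, Ideal.mem_span_singleton]
  have h := ev_frob hp G z x
  rw [hx, zero_pow hp.ne_zero, zero_sub, dvd_neg] at h
  exact h

include hp in
theorem arith_ram (G : MvPolynomial (Fin 2) ℤ) {ι : Type*} [Fintype ι] (z z' x : R) (y : ι → R)
    (hzz : z' ^ p = z ^ p) (hx : ev G z x = 0) (hy : ∀ w, ev G z' w = ∏ j, (w - y j)) :
    (p : R) ∣ ∏ j, (aeval x (D p) - aeval (y j) (D p)) := by
  rw [← Ideal.mem_span_singleton, ← Ideal.Quotient.eq_zero_iff_mem]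
  set π := Ideal.Quotient.mk (Ideal.span {(p : R)}) with hπ
  have e1 : ∀ x : R, π (aeval x (D p)) = π x ^ p := by
    intro x
    rw [← map_pow, hπ, Ideal.Quotient.eq, Ideal.mem_span_singleton]
    exact D_congr hp x
  have hp0 : ((p : ℕ) : R ⧸ Ideal.span {(p : R)}) = 0 := by
    have : π (p : R) = 0 := by
      rw [hπ, Ideal.Quotient.eq_zero_iff_mem]
      exact Ideal.mem_span_singleton_self _
    rwa [map_natCast] at this
  have e2 : π (∏ j, (aeval x (D p) - aeval (y j) (D p))) = (π (∏ j, (x - y j))) ^ p := by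
    rw [map_prod, map_prod, ← Finset.prod_pow]
    apply Finset.prod_congr rfl
    intro j _
    rw [map_sub, map_sub, e1, e1, sub_pow_quot hp hp0]
  have e3 : π (ev G z x ^ p) = π (ev G (z ^ p) (x ^ p)) := by
    rw [hπ, Ideal.Quotient.eq, Ideal.mem_span_singleton]
    exact ev_frob hp G z x
  have e4 : π (ev G z' x ^ p) = π (ev G (z' ^ p) (x ^ p)) := by
    rw [hπ, Ideal.Quotient.eq, Ideal.mem_span_singleton]
    exact ev_frob hp G z' x
  rw [e2, ← hy, ← map_pow, e4, hzz, ← e3, hx, zero_pow hp.ne_zero, map_zero]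

end quot

/-- The polynomial in two variables attached to a family of integer polynomials. -/
noncomputable def biv (n : ℕ) (A : ℕ → ℤ[X]) : MvPolynomial (Fin 2) ℤ :=
  ∑ k ∈ Finset.range (n + 1), (aeval (MvPolynomial.X 0) (A k)) * (MvPolynomial.X 1) ^ k

theorem ev_biv {R : Type*} [CommRing R] (n : ℕ) (A : ℕ → ℤ[X]) (z w : R) :
    ev (biv n A) z w = ∑ k ∈ Finset.range (n + 1), aeval z (A k) * w ^ k := by
  unfold ev biv
  rw [map_sum]
  apply Finset.sum_congr rfl
  intro k _
  rw [map_mul, map_pow, MvPolynomial.aeval_X]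
  congr 1
  have h := map_aeval_int (MvPolynomial.aeval (R := ℤ) ![z, w]).toRingHom
    (MvPolynomial.X 0) (A k)
  have h2 : (MvPolynomial.aeval (R := ℤ) ![z, w]).toRingHom (MvPolynomial.X 0) = z := by
    show MvPolynomial.aeval (R := ℤ) ![z, w] (MvPolynomial.X 0) = z
    rw [MvPolynomial.aeval_X]
    rfl
  rw [h2] at h
  exact h

/-- monic separable complex polynomials -/
theorem card_roots_sep {f : ℂ[X]} (hf : f.Monic) (hs : f.Separable) :
    Fintype.card {a // a ∈ f.roots.toFinset} = f.natDegree := by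
  rw [Fintype.card_coe, Multiset.toFinset_card_of_nodup (nodup_roots hs)]
  exact (IsAlgClosed.splits f).natDegree_eq_card_roots.symm

theorem prod_roots_sep {f : ℂ[X]} (hf : f.Monic) (hs : f.Separable) (w : ℂ) :
    ∏ a : {a // a ∈ f.roots.toFinset}, (w - a.1) = f.eval w := by
  rw [Finset.prod_coe_sort f.roots.toFinset (fun a => w - a)]
  rw [Finset.prod_eq_multiset_prod, Multiset.toFinset_val, Multiset.dedup_eq_self.mpr
    (nodup_roots hs)]
  have h := (IsAlgClosed.splits f).eq_prod_roots_of_monic hf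
  conv_rhs => rw [h]
  rw [eval_multiset_prod, Multiset.map_map]
  congr 1
  apply Multiset.map_congr rfl
  intro a _
  simp

end Pool.Agent.MP1f45fc
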