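import Mathlib
import Pool.Agent.Lib.MP_1f45fc_nt.RelArith

set_option autoImplicit false

/-!
The trace of a Salem number and cyclotomic fields: the main inequality.
-/

namespace Pool.Agent.MP1f45fc

open Polynomial

theorem map_ev {R S : Type*} [CommRing R] [CommRing S] (f : R →+* S)
    (G : MvPolynomial (Fin 2) ℤ) (a b : R) : f (ev G a b) = ev G (f a) (f b) := by
  unfold ev
  have h : f.toIntAlgHom.comp (MvPolynomial.aeval ![a, b]) =
      MvPolynomial.aeval ![f a, f b] := by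
    apply MvPolynomial.algHom_ext
    intro i
    fin_cases i <;> simp
  have h2 := congrArg (fun φ : MvPolynomial (Fin 2) ℤ →ₐ[ℤ] S => φ G) h
  exact h2

/-- The final step: from divisibility to the inequality. -/
theorem rel_finish {β : ℝ} (H : Hyp2 β) {p : ℕ} (hp : p.Prime) {c l : ℕ} (f1 f2 : ℂ[X])
    (h1m : f1.Monic) (h2m : f2.Monic) (h1s : f1.Separable) (h2s : f2.Separable)
    (h1d : f1.natDegree = c) (h2d : f2.natDegree = c) (hc : 0 < c)
    (h1r : ∀ a, f1.eval a = 0 → aeval a (minpoly ℚ (β + β⁻¹)) = 0)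
    (h2r : ∀ a, f2.eval a = 0 → aeval a (minpoly ℚ (β + β⁻¹)) = 0)
    (hl : l ≠ 0) (hlp : l ≤ p) (hdis : l = p → ∀ a, f1.eval a = 0 → f2.eval a ≠ 0)
    (hdvd : ∀ (x : integralClosure ℤ ℂ) (y : {a // a ∈ f2.roots.toFinset} → integralClosure ℤ ℂ),
      f1.eval (x : ℂ) = 0 → (∀ j, (y j : ℂ) = j.1) →
      (p : integralClosure ℤ ℂ) ∣ ∏ j, (aeval x (D p) - aeval (y j) (D l))) :
    (p : ℝ) ^ (2 * (minpoly ℚ (β + β⁻¹)).natDegree) ≤
      ((4 * c : ℕ) : ℝ) ^ (2 * (minpoly ℚ (β + β⁻¹)).natDegree) *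
        β ^ ((4 * c - 1) * (p + l)) := by
  classical
  have r1 : ∀ i : {a // a ∈ f1.roots.toFinset}, f1.eval i.1 = 0 := by
    rintro ⟨a, ha⟩
    rw [Multiset.mem_toFinset, mem_roots h1m.ne_zero] at ha
    exact ha
  have r2 : ∀ i : {a // a ∈ f2.roots.toFinset}, f2.eval i.1 = 0 := by
    rintro ⟨a, ha⟩
    rw [Multiset.mem_toFinset, mem_roots h2m.ne_zero] at ha
    exact ha
  let x : {a // a ∈ f1.roots.toFinset} → integralClosure ℤ ℂ :=
    fun i => ⟨i.1, root_integral H (h1r _ (r1 i))⟩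
  let y : {a // a ∈ f2.roots.toFinset} → integralClosure ℤ ℂ :=
    fun i => ⟨i.1, root_integral H (h2r _ (r2 i))⟩
  refine rel_master H (ι₁ := {a // a ∈ f1.roots.toFinset}) (ι₂ := {a // a ∈ f2.roots.toFinset})
    (m := p) (l := l) (Q := p) hc ?_ ?_ (fun i => i.1) (fun j => j.1)
    Subtype.val_injective Subtype.val_injective (fun i => h1r _ (r1 i)) (fun j => h2r _ (r2 j))
    hl hlp ?_ hp.pos ?_
  · rw [card_roots_sep h1m h1s, h1d]
  · rw [card_roots_sep h2m h2s, h2d]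
  · intro hl i j hij
    exact hdis hl _ (r1 i) (by rw [hij]; exact r2 j)
  · have h3 : ∀ i, (p : integralClosure ℤ ℂ) ∣ ∏ j, (aeval (x i) (D p) - aeval (y j) (D l)) :=
      fun i => hdvd (x i) y (r1 i) (fun j => rfl)
    have h4 := Finset.prod_dvd_prod_of_dvd (s := Finset.univ) _ _ (fun i _ => h3 i)
    rw [Finset.prod_const, Finset.card_univ, card_roots_sep h1m h1s, h1d] at h4
    obtain ⟨w, hw⟩ := h4
    have hcoe : ∀ (u : integralClosure ℤ ℂ) (P : ℤ[X]),
        ((aeval u P : integralClosure ℤ ℂ) : ℂ) = aeval (u : ℂ) P :=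
      fun u P => map_aeval_int (algebraMap (integralClosure ℤ ℂ) ℂ) u P
    have h5 := congrArg (fun u : integralClosure ℤ ℂ => (u : ℂ)) hw
    have hpC : (p : ℂ) ≠ 0 := by exact_mod_cast hp.ne_zero
    have h6 : (∏ i : {a // a ∈ f1.roots.toFinset}, ∏ j : {a // a ∈ f2.roots.toFinset},
        (aeval i.1 (D p) - aeval j.1 (D l))) / (p : ℂ) ^ c = w := by
      rw [div_eq_iff (pow_ne_zero _ hpC)]
      have h7 : ((∏ i, ∏ j, (aeval (x i) (D p) - aeval (y j) (D l)) : integralClosure ℤ ℂ) : ℂ) =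
          ∏ i : {a // a ∈ f1.roots.toFinset}, ∏ j : {a // a ∈ f2.roots.toFinset},
        (aeval i.1 (D p) - aeval j.1 (D l)) := by
        rw [← Subalgebra.coe_val, map_prod]
        apply Finset.prod_congr rfl
        intro i _
        rw [map_prod]
        apply Finset.prod_congr rfl
        intro j _
        show _ = aeval i.1 (D p) - aeval j.1 (D l)
        rw [map_sub, Subalgebra.coe_val, hcoe, hcoe]
      rw [← h7, h5]
      push_cast
      ring
    rw [h6]
    exact w.2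

theorem rel_core {β : ℝ} (H : Hyp2 β) {p : ℕ} (hp : p.Prime) (c : ℕ) :
    ∀ n : ℕ, 0 < n → ∀ (K : Type) [Field K] [NumberField K] [IsCyclotomicExtension {n} ℚ K]
      (φ0 : K →+* ℂ) (μ : K[X]), μ.Monic → μ.natDegree ≤ c →
      eval₂ φ0 ((β + β⁻¹ : ℝ) : ℂ) μ = 0 →
      (p : ℝ) ^ (minpoly ℚ (β + β⁻¹)).natDegree ≤
        ((4 * c : ℕ) : ℝ) ^ (minpoly ℚ (β + β⁻¹)).natDegree * β ^ ((4 * c - 1) * p) := by
  intro n
  induction n using Nat.strong_induction_on with
  | _ n ih =>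
  intro hn K _ _ _ φ0 μ0 hμ0 hμ0d hμ0r
  have : NeZero n := ⟨hn.ne'⟩
  set γ : ℂ := ((β + β⁻¹ : ℝ) : ℂ) with hγ
  set d := (minpoly ℚ (β + β⁻¹)).natDegree with hd
  have hβ1 := H.one_lt
  have hγint : IsIntegral ℤ γ :=
    (H.integral.add H.inv_integral).map (algebraMap ℝ ℂ).toIntAlgHom
  let _ : Algebra K ℂ := φ0.toAlgebra
  have hφ0 : algebraMap K ℂ = φ0 := rfl
  have hγK : IsIntegral K γ := hγint.tower_top
  set μ := minpoly K γ with hμ
  have hμm : μ.Monic := minpoly.monic hγK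
  have hμi : Irreducible μ := minpoly.irreducible hγK
  have hμs : μ.Separable := hμi.separable
  have hμd : μ.natDegree ≤ c := by
    refine le_trans (natDegree_le_of_dvd (minpoly.dvd K γ ?_) hμ0.ne_zero) hμ0d
    rw [aeval_def]
    exact hμ0r
  have hcpos : 0 < μ.natDegree := minpoly.natDegree_pos hγK
  have hμγ : eval₂ φ0 γ μ = 0 := by
    have := minpoly.aeval K γ
    rwa [aeval_def] at this
  have hcoef : ∀ k, IsIntegral ℤ (μ.coeff k) := by
    intro k
    apply Polynomial.isIntegral_coeff_of_dvd (minpoly ℤ γ) μ (minpoly.monic hγint) hμm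
    apply minpoly.dvd
    rw [aeval_map_algebraMap]
    exact minpoly.aeval ℤ γ
  have hζ := IsCyclotomicExtension.zeta_spec n ℚ K
  set ζ := IsCyclotomicExtension.zeta n ℚ K with hζdef
  have hex : ∀ k, ∃ A : ℤ[X], aeval ζ A = μ.coeff k := fun k => exists_poly hζ (hcoef k)
  choose A hA using hex
  set G := biv μ.natDegree A with hG
  have hζint : IsIntegral ℤ ζ := hζ.isIntegral hn
  -- evaluation
  have hevC : ∀ (σ : K →+* ℂ) (w : ℂ), ev G (σ ζ) w = (μ.map σ).eval w := by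
    intro σ w
    rw [hG, ev_biv, eval_map, eval₂_eq_sum_range]
    apply Finset.sum_congr rfl
    intro k _
    rw [← hA k, map_aeval_int σ]
  have hcoe : ∀ (a b : integralClosure ℤ ℂ),
      ((ev G a b : integralClosure ℤ ℂ) : ℂ) = ev G (a : ℂ) (b : ℂ) :=
    fun a b => map_ev (algebraMap (integralClosure ℤ ℂ) ℂ) G a b
  have hσm : ∀ σ : K →+* ℂ, (μ.map σ).Monic := fun σ => hμm.map σ
  have hσs : ∀ σ : K →+* ℂ, (μ.map σ).Separable := fun σ => hμs.map
  have hσd : ∀ σ : K →+* ℂ, (μ.map σ).natDegree = μ.natDegree := fun σ => natDegree_map σ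
  have hσr : ∀ (σ : K →+* ℂ) (a : ℂ), (μ.map σ).eval a = 0 →
      aeval a (minpoly ℚ (β + β⁻¹)) = 0 := by
    intro σ a ha
    have h1 : minpoly ℚ γ = minpoly ℚ (β + β⁻¹) :=
      minpoly.algebraMap_eq (algebraMap ℝ ℂ).injective (β + β⁻¹)
    have h2 : μ ∣ (minpoly ℚ (β + β⁻¹)).map (algebraMap ℚ K) := by
      apply minpoly.dvd
      rw [← h1, aeval_map_algebraMap]
      exact minpoly.aeval ℚ γ
    have h3 := Polynomial.map_dvd σ h2
    rw [Polynomial.map_map] at h3
    have h4 : σ.comp (algebraMap ℚ K) = algebraMap ℚ ℂ := RingHom.ext_rat _ _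
    rw [h4] at h3
    obtain ⟨q, hq⟩ := h3
    rw [← eval_map_algebraMap, hq, eval_mul, ha, zero_mul]
  -- conclusion from the squared inequality
  have hfin : ∀ l : ℕ, l ≤ p → (p : ℝ) ^ (2 * d) ≤
      ((4 * μ.natDegree : ℕ) : ℝ) ^ (2 * d) * β ^ ((4 * μ.natDegree - 1) * (p + l)) →
      (p : ℝ) ^ d ≤ ((4 * c : ℕ) : ℝ) ^ d * β ^ ((4 * c - 1) * p) := by
    intro l hl h
    have h1 : ((4 * μ.natDegree : ℕ) : ℝ) ^ (2 * d) * β ^ ((4 * μ.natDegree - 1) * (p + l)) ≤
        ((4 * c : ℕ) : ℝ) ^ (2 * d) * β ^ ((4 * c - 1) * (p + p)) := by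
      have e1 : ((4 * μ.natDegree : ℕ) : ℝ) ≤ ((4 * c : ℕ) : ℝ) := by
        exact_mod_cast Nat.mul_le_mul_left 4 hμd
      have e2 : (4 * μ.natDegree - 1) * (p + l) ≤ (4 * c - 1) * (p + p) :=
        Nat.mul_le_mul (by omega) (by omega)
      have e3 : β ^ ((4 * μ.natDegree - 1) * (p + l)) ≤ β ^ ((4 * c - 1) * (p + p)) :=
        pow_le_pow_right₀ hβ1.le e2
      gcongr
    have h2 : ((p : ℝ) ^ d) ^ 2 ≤ (((4 * c : ℕ) : ℝ) ^ d * β ^ ((4 * c - 1) * p)) ^ 2 := by
      calc ((p : ℝ) ^ d) ^ 2 = (p : ℝ) ^ (2 * d) := by ring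
        _ ≤ _ := h.trans h1
        _ = (((4 * c : ℕ) : ℝ) ^ d * β ^ ((4 * c - 1) * p)) ^ 2 := by ring
    exact le_of_sq_le_sq h2 (by positivity)
  -- the product over the roots
  have hprodC : ∀ (σ : K →+* ℂ) (w : ℂ),
      ev G (σ ζ) w = ∏ a : {a // a ∈ (μ.map σ).roots.toFinset}, (w - a.1) := by
    intro σ w
    rw [hevC, prod_roots_sep (hσm σ) (hσs σ)]
  have hσζint : ∀ σ : K →+* ℂ, IsIntegral ℤ (σ ζ) := fun σ => hζint.map σ.toIntAlgHom
  have hprod : ∀ (σ : K →+* ℂ) (z : integralClosure ℤ ℂ)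
      (y : {a // a ∈ (μ.map σ).roots.toFinset} → integralClosure ℤ ℂ),
      (z : ℂ) = σ ζ → (∀ j, (y j : ℂ) = j.1) →
      ∀ w : integralClosure ℤ ℂ, ev G z w = ∏ j, (w - y j) := by
    intro σ z y hz hy w
    apply Subtype.ext
    rw [hcoe, hz, hprodC]
    show _ = ((∏ j, (w - y j) : integralClosure ℤ ℂ) : ℂ)
    rw [← Subalgebra.coe_val, map_prod]
    apply Finset.prod_congr rfl
    intro j _
    rw [map_sub, Subalgebra.coe_val, hy]
  let z0 : integralClosure ℤ ℂ := ⟨φ0 ζ, hσζint φ0⟩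
  have hzero : ∀ x : integralClosure ℤ ℂ, (μ.map φ0).eval (x : ℂ) = 0 → ev G z0 x = 0 := by
    intro x hx
    apply Subtype.ext
    rw [hcoe]
    show ev G (φ0 ζ) (x : ℂ) = 0
    rw [hevC]
    exact hx
  by_cases hpn : p ∣ n
  · obtain ⟨n', rfl⟩ := hpn
    have hn' : 0 < n' := Nat.pos_of_mul_pos_left hn |> fun h => by
      rcases Nat.eq_zero_or_pos n' with h0 | h0
      · rw [h0, mul_zero] at hn
        omega
      · exact h0
    by_cases hall : ∀ (τ : K ≃ₐ[ℚ] K), τ (ζ ^ p) = ζ ^ p → ∀ k, τ (μ.coeff k) = μ.coeff k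
    · -- descend
      have : IsGalois ℚ K := IsCyclotomicExtension.isGalois {p * n'} ℚ K
      have hmem : ∀ k, μ.coeff k ∈ IntermediateField.adjoin ℚ {ζ ^ p} := by
        intro k
        rw [← IsGalois.fixedField_fixingSubgroup (IntermediateField.adjoin ℚ {ζ ^ p}),
          IntermediateField.mem_fixedField_iff]
        intro τ hτ
        apply hall
        rw [IntermediateField.mem_fixingSubgroup_iff] at hτ
        exact hτ _ (IntermediateField.mem_adjoin_simple_self ℚ (ζ ^ p))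
      have : NeZero n' := ⟨hn'.ne'⟩
      have hζp : IsPrimitiveRoot (ζ ^ p) n' := hζ.pow (by positivity) rfl
      have hcyc : IsCyclotomicExtension {n'} ℚ (IntermediateField.adjoin ℚ {ζ ^ p}) :=
        hζp.intermediateField_adjoin_isCyclotomicExtension ℚ
      have hlift : μ ∈ Polynomial.lifts
          (algebraMap (IntermediateField.adjoin ℚ {ζ ^ p}) K) := by
        rw [Polynomial.lifts_iff_coeff_lifts]
        intro k
        exact ⟨⟨μ.coeff k, hmem k⟩, rfl⟩
      obtain ⟨ν, hν1, hν2, hν3⟩ := Polynomial.lifts_and_natDegree_eq_and_monic hlift hμm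
      refine ih n' ?_ hn' (IntermediateField.adjoin ℚ {ζ ^ p})
        (φ0.comp (algebraMap (IntermediateField.adjoin ℚ {ζ ^ p}) K)) ν hν3
        (by rw [hν2]; exact hμd) ?_
      · have := hp.one_lt
        nlinarith
      · rw [← eval₂_map, hν1]
        exact hμγ
    · push Not at hall
      obtain ⟨τ, hτ, k, hk⟩ := hall
      let σ : K →+* ℂ := φ0.comp (τ : K →+* K)
      have hσζ : σ ζ = φ0 (τ ζ) := rfl
      let z1 : integralClosure ℤ ℂ := ⟨σ ζ, hσζint σ⟩
      have hz : z1 ^ p = z0 ^ p := by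
        apply Subtype.ext
        show (σ ζ) ^ p = (φ0 ζ) ^ p
        rw [hσζ, ← map_pow, ← map_pow, ← map_pow, hτ]
      apply hfin p le_rfl
      refine rel_finish H hp (μ.map φ0) (μ.map σ) (hσm _) (hσm _) (hσs _) (hσs _) (hσd _)
        (hσd _) hcpos (hσr φ0) (hσr σ) hp.ne_zero le_rfl ?_ ?_
      · intro _ a ha1 ha2
        -- common root
        have h1 : aeval a μ = 0 := by
          rw [aeval_def, hφ0, ← eval_map]
          exact ha1
        have h2 : aeval a (μ.map (τ : K →+* K)) = 0 := by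
          rw [aeval_def, hφ0, ← eval_map, Polynomial.map_map]
          exact ha2
        have h3 : Irreducible (μ.map (τ : K →+* K)) := by
          have h4 := (MulEquiv.irreducible_iff (Polynomial.mapEquiv τ.toRingEquiv)
            (x := μ)).mpr hμi
          exact h4
        have h5 := minpoly.eq_of_irreducible_of_monic hμi h1 hμm
        have h6 := minpoly.eq_of_irreducible_of_monic h3 h2 (hμm.map _)
        have h7 := congrArg (fun q => q.coeff k) (h5.trans h6.symm)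
        simp only [coeff_map] at h7
        exact hk h7.symm
      · intro x y hx hy
        exact arith_ram hp G z0 z1 x y hz (hzero x hx) (hprod σ z1 y rfl hy)
  · -- unramified case
    have hcop : Nat.Coprime p n := (Nat.Prime.coprime_iff_not_dvd hp).2 hpn
    have hζp : IsPrimitiveRoot (ζ ^ p) n := hζ.pow_of_coprime p hcop
    let τ : K ≃ₐ[ℚ] K := IsCyclotomicExtension.fromZetaAut hζp
      (cyclotomic.irreducible_rat hn)
    have hτζ : τ ζ = ζ ^ p := IsCyclotomicExtension.fromZetaAut_spec hζp _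
    let σ : K →+* ℂ := φ0.comp (τ : K →+* K)
    have hσζ : σ ζ = (φ0 ζ) ^ p := by
      show φ0 (τ ζ) = _
      rw [hτζ, map_pow]
    apply hfin 1 hp.one_lt.le
    refine rel_finish H hp (μ.map φ0) (μ.map σ) (hσm _) (hσm _) (hσs _) (hσs _) (hσd _)
        (hσd _) hcpos (hσr φ0) (hσr σ) one_ne_zero hp.one_lt.le ?_ ?_
    · intro h
      exact absurd h hp.one_lt.ne
    · intro x y hx hy
      exact arith_unram hp G z0 x y (hzero x hx) (hprod σ (z0 ^ p) y (by
        rw [hσζ]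
        rfl) hy)

end Pool.Agent.MP1f45fc
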