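import Mathlib
import Pool.Agent.Lib.MP_1f45fc_nt.RelCore

set_option autoImplicit false

/-!
Consequences of the main inequality.
-/

namespace Pool.Agent.MP1f45fc

open Polynomial

theorem rel_adjoin {β : ℝ} (H : Hyp2 β) {p : ℕ} (hp : p.Prime) {c n : ℕ} (hn : 0 < n) (ζ : ℂ)
    (hζ : ζ ^ n = 1) (g : (IntermediateField.adjoin ℚ {ζ})[X]) (hg : g.Monic)
    (hdeg : g.natDegree ≤ c) (hroot : aeval ((β + β⁻¹ : ℝ) : ℂ) g = 0) :
    (p : ℝ) ^ (minpoly ℚ (β + β⁻¹)).natDegree ≤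
      ((4 * c : ℕ) : ℝ) ^ (minpoly ℚ (β + β⁻¹)).natDegree * β ^ ((4 * c - 1) * p) := by
  have hfin : IsOfFinOrder ζ := isOfFinOrder_iff_pow_eq_one.mpr ⟨n, hn, hζ⟩
  have hpos : 0 < orderOf ζ := hfin.orderOf_pos
  have hprim : IsPrimitiveRoot ζ (orderOf ζ) := IsPrimitiveRoot.orderOf ζ
  have : NeZero (orderOf ζ) := ⟨hpos.ne'⟩
  have hint : IsIntegral ℚ ζ := (hprim.isIntegral hpos).tower_top
  have hfd : FiniteDimensional ℚ (IntermediateField.adjoin ℚ {ζ}) := by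
    apply IntermediateField.finiteDimensional_adjoin
    intro z hz
    rw [Set.mem_singleton_iff] at hz
    rw [hz]
    exact hint
  have hnf : NumberField (IntermediateField.adjoin ℚ {ζ}) := { }
  have hcyc : IsCyclotomicExtension {orderOf ζ} ℚ (IntermediateField.adjoin ℚ {ζ}) := by
    change IsCyclotomicExtension {orderOf ζ} ℚ (IntermediateField.adjoin ℚ {ζ}).toSubalgebra
    rw [IntermediateField.adjoin_simple_toSubalgebra_of_isAlgebraic hint.isAlgebraic]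
    exact hprim.adjoin_isCyclotomicExtension ℚ
  refine rel_core H hp c (orderOf ζ) hpos (IntermediateField.adjoin ℚ {ζ})
    (algebraMap (IntermediateField.adjoin ℚ {ζ}) ℂ) g hg hdeg ?_
  rw [← aeval_def]
  exact hroot

theorem chord {x : ℝ} (h1 : 2 ≤ x) (h2 : x ≤ 4) : x / 2 * Real.log 2 ≤ Real.log x := by
  have hconc := strictConcaveOn_log_Ioi.concaveOn
  have h := hconc.2 (show (2 : ℝ) ∈ Set.Ioi 0 by norm_num [Set.mem_Ioi])
    (show (4 : ℝ) ∈ Set.Ioi 0 by norm_num [Set.mem_Ioi])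
    (show 0 ≤ (4 - x) / 2 by linarith) (show 0 ≤ (x - 2) / 2 by linarith) (by ring)
  simp only [smul_eq_mul] at h
  have e1 : (4 - x) / 2 * 2 + (x - 2) / 2 * 4 = x := by ring
  have e2 : Real.log 4 = 2 * Real.log 2 := by
    rw [show (4 : ℝ) = 2 ^ 2 by norm_num, Real.log_pow]
    norm_num
  rw [e1, e2] at h
  calc x / 2 * Real.log 2 = (4 - x) / 2 * Real.log 2 + (x - 2) / 2 * (2 * Real.log 2) := by ring
    _ ≤ Real.log x := h

/-- The logarithmic form. -/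
theorem log_form {β : ℝ} (hβ : 1 < β) {c d : ℕ} (hc : 0 < c)
    (hall : ∀ p : ℕ, p.Prime → (p : ℝ) ^ d ≤ ((4 * c : ℕ) : ℝ) ^ d * β ^ ((4 * c - 1) * p)) :
    (d : ℝ) * Real.log 2 < 32 * (c : ℝ) ^ 2 * Real.log β := by
  obtain ⟨p, hp, h1, h2⟩ := Nat.exists_prime_lt_and_le_two_mul (8 * c) (by omega)
  have h := hall p hp
  have hp0 : (0 : ℝ) < p := by exact_mod_cast hp.pos
  have hc0 : (0 : ℝ) < c := by exact_mod_cast hc
  have hlog := Real.log_le_log (by positivity) h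
  have hβ0 : (0 : ℝ) < β := by linarith
  have hlβ : 0 < Real.log β := Real.log_pos hβ
  rw [Real.log_mul (by positivity) (by positivity), Real.log_pow, Real.log_pow, Real.log_pow]
    at hlog
  set x : ℝ := (p : ℝ) / ((4 * c : ℕ) : ℝ) with hx
  have h4c : (0 : ℝ) < ((4 * c : ℕ) : ℝ) := by positivity
  have hx1 : 2 ≤ x := by
    rw [hx, le_div_iff₀ h4c]
    have : ((8 * c : ℕ) : ℝ) ≤ (p : ℝ) := by exact_mod_cast h1.le
    push_cast at this ⊢
    linarith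
  have hx2 : x ≤ 4 := by
    rw [hx, div_le_iff₀ h4c]
    have : (p : ℝ) ≤ ((2 * (8 * c) : ℕ) : ℝ) := by exact_mod_cast h2
    push_cast at this ⊢
    linarith
  have hch := chord hx1 hx2
  have hlx : Real.log x = Real.log p - Real.log ((4 * c : ℕ) : ℝ) :=
    Real.log_div (by positivity) (by positivity)
  have hpx : (p : ℝ) = 4 * c * x := by
    rw [hx]
    push_cast
    field_simp
  have hsub : (((4 * c - 1) * p : ℕ) : ℝ) = (4 * c - 1) * p := by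
    have : 1 ≤ 4 * c := by omega
    push_cast [Nat.cast_sub this]
    ring
  rw [hsub] at hlog
  have h5 : (d : ℝ) * Real.log x ≤ (4 * c - 1) * p * Real.log β := by
    rw [hlx]
    linarith
  have hd0 : (0 : ℝ) ≤ d := Nat.cast_nonneg d
  have h6 : (d : ℝ) * (x / 2 * Real.log 2) ≤ (4 * c - 1) * p * Real.log β :=
    le_trans (mul_le_mul_of_nonneg_left hch hd0) h5
  have h7 : (4 * (c : ℝ) - 1) * p * Real.log β < 4 * c * p * Real.log β := by
    have : 0 < (p : ℝ) * Real.log β := by positivity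
    nlinarith
  have hx0 : 0 < x := by linarith
  have h8 : x / 2 * ((d : ℝ) * Real.log 2) < x / 2 * (32 * (c : ℝ) ^ 2 * Real.log β) := by
    calc x / 2 * ((d : ℝ) * Real.log 2) = (d : ℝ) * (x / 2 * Real.log 2) := by ring
      _ ≤ (4 * c - 1) * p * Real.log β := h6
      _ < 4 * c * p * Real.log β := h7
      _ = x / 2 * (32 * (c : ℝ) ^ 2 * Real.log β) := by
        rw [hpx]
        ring
  exact lt_of_mul_lt_mul_left h8 (by positivity)

/-- Lehmer's number is smaller than `1.1763`. -/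
theorem lehmer_lt {τ : ℝ}
    (h : τ ^ 10 + τ ^ 9 - τ ^ 7 - τ ^ 6 - τ ^ 5 - τ ^ 4 - τ ^ 3 + τ + 1 = 0) : τ < 1.1763 := by
  by_contra hcon
  push Not at hcon
  obtain ⟨u, rfl⟩ : ∃ u, τ = 1.1763 + u := ⟨τ - 1.1763, by ring⟩
  have hu : 0 ≤ u := by linarith
  ring_nf at h
  have h2 : 0 ≤ u ^ 2 := by positivity
  have h3 : 0 ≤ u ^ 3 := by positivity
  have h4 : 0 ≤ u ^ 4 := by positivity
  have h5 : 0 ≤ u ^ 5 := by positivity
  have h6 : 0 ≤ u ^ 6 := by positivity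
  have h7 : 0 ≤ u ^ 7 := by positivity
  have h8 : 0 ≤ u ^ 8 := by positivity
  have h9 : 0 ≤ u ^ 9 := by positivity
  have h10 : 0 ≤ u ^ 10 := by positivity
  linarith

theorem log_lehmer {β : ℝ} (h0 : 1 < β) (h : β < 1.1763) :
    64 * Real.log β ≤ 15 * Real.log 2 := by
  have h1 : β ^ 64 ≤ (2 : ℝ) ^ 15 := by
    calc β ^ 64 ≤ (1.1763 : ℝ) ^ 64 := by gcongr
      _ ≤ 2 ^ 15 := by norm_num
  have h2 := Real.log_le_log (by positivity) h1
  rw [Real.log_pow, Real.log_pow] at h2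
  push_cast at h2
  exact h2

theorem case_two {β : ℝ} (h0 : 1 < β) (h : β < 1.1763) {c d : ℕ} (hc : c ≤ 2) (hc0 : 0 < c)
    (hd : 25 ≤ d)
    (hall : ∀ p : ℕ, p.Prime → (p : ℝ) ^ d ≤ ((4 * c : ℕ) : ℝ) ^ d * β ^ ((4 * c - 1) * p)) :
    False := by
  have h1 := hall 23 (by norm_num)
  have hβ0 : 0 < β := by linarith
  have e1 : ((4 * c : ℕ) : ℝ) ≤ 8 := by
    have : 4 * c ≤ 8 := by omega
    exact_mod_cast this
  have e2 : β ^ ((4 * c - 1) * 23) ≤ (1.1763 : ℝ) ^ 161 := by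
    calc β ^ ((4 * c - 1) * 23) ≤ β ^ 161 := by
          apply pow_le_pow_right₀ h0.le
          omega
      _ ≤ (1.1763 : ℝ) ^ 161 := by gcongr
  have h2 : (23 : ℝ) ^ d ≤ 8 ^ d * (1.1763 : ℝ) ^ 161 := by
    calc (23 : ℝ) ^ d = ((23 : ℕ) : ℝ) ^ d := by norm_num
      _ ≤ ((4 * c : ℕ) : ℝ) ^ d * β ^ ((4 * c - 1) * 23) := h1
      _ ≤ 8 ^ d * (1.1763 : ℝ) ^ 161 := by gcongr
  obtain ⟨k, rfl⟩ := Nat.exists_eq_add_of_le hd
  rw [pow_add, pow_add] at h2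
  have h3 : (8 : ℝ) ^ 25 * (1.1763 : ℝ) ^ 161 < 23 ^ 25 := by norm_num
  have h4 : (8 : ℝ) ^ k ≤ 23 ^ k := by
    gcongr
    norm_num
  have h5 : (0 : ℝ) < 8 ^ k := by positivity
  have h6 : (8 : ℝ) ^ 25 * 8 ^ k * (1.1763 : ℝ) ^ 161 < 23 ^ 25 * 23 ^ k := by
    calc (8 : ℝ) ^ 25 * 8 ^ k * (1.1763 : ℝ) ^ 161 = ((8 : ℝ) ^ 25 * (1.1763 : ℝ) ^ 161) * 8 ^ k := by
          ring
      _ < 23 ^ 25 * 8 ^ k := by gcongr
      _ ≤ 23 ^ 25 * 23 ^ k := by gcongr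
  linarith

end Pool.Agent.MP1f45fc
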