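import Mathlib
import Pool.Agent.Lib.MP_1f45fc_nt.RelFinal

set_option autoImplicit false

open Polynomial

namespace Pool.Agent.Results.MP_1f45fc_nt.RelativeAbelian

/-- `β` is a Parry number: the orbit of `1` under `x ↦ fract (β * x)` is finite (that is, the
greedy `β`-expansion of `1` is finite or eventually periodic). -/
def IsParry (β : ℝ) : Prop :=
  (Set.range (fun k : ℕ => (fun x : ℝ => Int.fract (β * x))^[k] (1 : ℝ))).Finite

/-- `β` is a Perron number: a real algebraic integer `β > 1` all of whose other conjugates have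
modulus strictly less than `β`. -/
def IsPerron (β : ℝ) : Prop :=
  1 < β ∧ IsIntegral ℤ β ∧
    ∀ z : ℂ, aeval z (minpoly ℤ β) = 0 → z ≠ (β : ℂ) → ‖z‖ < β

/-- The degree over `ℚ` of the trace `β + 1/β`. -/
noncomputable def traceDegree (β : ℝ) : ℕ := (minpoly ℚ (β + β⁻¹)).natDegree

/-- Let `β` be a Perron number such that `1/β` is a conjugate of `β`, put `γ = β + 1/β` and
`d = [ℚ(γ) : ℚ]`, and suppose that `γ` is a root of a monic polynomial of degree at most `c` over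
a cyclotomic field `ℚ(ζ)`, `ζ` a root of unity. If `(4c)^d β^((4c-1)p) < p^d` for some prime `p`,
or if `β` is smaller than Lehmer's number `τ` and `15 c² ≤ 2 d` or `c ≤ 2, d ≥ 25`, then `β ^ n`
is a Parry number for only finitely many `n ≥ 1`. -/
theorem result (β : ℝ) (hβ : IsPerron β) (hrec : aeval (β⁻¹ : ℝ) (minpoly ℤ β) = 0)
    (ζ : ℂ) (n : ℕ) (hn : 0 < n) (hζ : ζ ^ n = 1) (c : ℕ)
    (g : (IntermediateField.adjoin ℚ {ζ})[X]) (hg : g.Monic) (hdeg : g.natDegree ≤ c)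
    (hroot : aeval ((β + β⁻¹ : ℝ) : ℂ) g = 0)
    (τ : ℝ) (hτ : τ ^ 10 + τ ^ 9 - τ ^ 7 - τ ^ 6 - τ ^ 5 - τ ^ 4 - τ ^ 3 + τ + 1 = 0)
    (h : (∃ p : ℕ, p.Prime ∧
        (4 * (c : ℝ)) ^ traceDegree β * β ^ ((4 * c - 1) * p) < (p : ℝ) ^ traceDegree β) ∨
      (β < τ ∧ (15 * c ^ 2 ≤ 2 * traceDegree β ∨ (c ≤ 2 ∧ 25 ≤ traceDegree β)))) :
    {n : ℕ | 1 ≤ n ∧ IsParry (β ^ n)}.Finite := by
  by_contra hinf
  obtain ⟨h1, hint, hper⟩ := hβ
  have H := Pool.Agent.MP1f45fc.hyp2_of_infinite h1 hint hper hrec hinf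
  have hall : ∀ p : ℕ, p.Prime → (p : ℝ) ^ traceDegree β ≤
      ((4 * c : ℕ) : ℝ) ^ traceDegree β * β ^ ((4 * c - 1) * p) :=
    fun p hp => Pool.Agent.MP1f45fc.rel_adjoin H hp hn ζ hζ g hg hdeg hroot
  have hc : 0 < c := by
    rcases Nat.eq_zero_or_pos c with h0 | h0
    · rw [h0, Nat.le_zero] at hdeg
      rw [Polynomial.Monic.natDegree_eq_zero hg |>.mp hdeg, map_one] at hroot
      exact absurd hroot one_ne_zero
    · exact h0
  rcases h with ⟨p, hp, hlt⟩ | ⟨hlt, h⟩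
  · have h2 := hall p hp
    push_cast at h2
    linarith
  · have hτ2 := Pool.Agent.MP1f45fc.lehmer_lt hτ
    have hβ2 : β < 1.1763 := hlt.trans hτ2
    rcases h with h | ⟨h, h'⟩
    · have h2 := Pool.Agent.MP1f45fc.log_form h1 hc hall
      have h3 := Pool.Agent.MP1f45fc.log_lehmer h1 hβ2
      have h4 : 15 * (c : ℝ) ^ 2 ≤ 2 * (traceDegree β : ℝ) := by exact_mod_cast h
      have h5 : 0 < Real.log 2 := Real.log_pos (by norm_num)
      have h6 : 0 < Real.log β := Real.log_pos h1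
      have h7 : 0 < (c : ℝ) ^ 2 := by positivity
      have h8 : 15 * (c : ℝ) ^ 2 * Real.log 2 ≤ 2 * (traceDegree β : ℝ) * Real.log 2 :=
        mul_le_mul_of_nonneg_right h4 h5.le
      have h9 : (c : ℝ) ^ 2 * (64 * Real.log β) ≤ (c : ℝ) ^ 2 * (15 * Real.log 2) :=
        mul_le_mul_of_nonneg_left h3 h7.le
      nlinarith
    · exact Pool.Agent.MP1f45fc.case_two h1 hβ2 h hc h' hall

end Pool.Agent.Results.MP_1f45fc_nt.RelativeAbelian
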