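import Mathlib
import Pool.Agent.Lib.MP_1f45fc_nt.Parry
import Pool.Agent.Lib.MP_1f45fc_nt_SP.Final

set_option autoImplicit false

open Polynomial

namespace Pool.Agent.Results.MP_1f45fc_nt.SparseExceptions

/-- `β` is a Parry number: the orbit of `1` under `x ↦ fract (β * x)` is finite (that is, the
greedy `β`-expansion of `1` is finite or eventually periodic). -/
def IsParry (β : ℝ) : Prop :=
  (Set.range (fun k : ℕ => (fun x : ℝ => Int.fract (β * x))^[k] (1 : ℝ))).Finite

/-- `β` is a Perron number: a real algebraic integer `β > 1` all of whose other conjugates have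
modulus strictly less than `β`. -/
def IsPerron (β : ℝ) : Prop :=
  1 < β ∧ IsIntegral ℤ β ∧
    ∀ z : ℂ, aeval z (minpoly ℤ β) = 0 → z ≠ (β : ℂ) → ‖z‖ < β

/-- `β` is a Pisot number or a Salem number: a real algebraic integer `β > 1` all of whose other
conjugates have modulus at most `1`. -/
def IsPisotOrSalem (β : ℝ) : Prop :=
  1 < β ∧ IsIntegral ℤ β ∧
    ∀ z : ℂ, aeval z (minpoly ℤ β) = 0 → z ≠ (β : ℂ) → ‖z‖ ≤ 1

/-- The exceptions of degree at most `n` up to `c`: the Perron numbers `β ≤ c` of degree at most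
`n` such that `β ^ m` is a Parry number for infinitely many `m ≥ 1`. -/
def exceptions (c : ℝ) (n : ℕ) : Set ℝ :=
  {β : ℝ | IsPerron β ∧ β ≤ c ∧ (minpoly ℤ β).natDegree ≤ n ∧
    {m : ℕ | 1 ≤ m ∧ IsParry (β ^ m)}.Infinite}

/-- The Pisot and Salem numbers up to `c` of degree at most `n`. -/
def pisotSalem (c : ℝ) (n : ℕ) : Set ℝ :=
  {β : ℝ | IsPisotOrSalem β ∧ β ≤ c ∧ (minpoly ℤ β).natDegree ≤ n}

/-- For every real `c` there is a constant `C` such that for every `n ≥ 2` there are at most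
`exp (C * sqrt (n * log n))` Pisot and Salem numbers up to `c` of degree at most `n`. All the
exceptions are Pisot or Salem numbers, so the same bound holds for the exceptions. -/
theorem result (c : ℝ) : ∃ C : ℝ, ∀ n : ℕ, 2 ≤ n →
    (pisotSalem c n).Finite ∧
      ((pisotSalem c n).ncard : ℝ) ≤ Real.exp (C * Real.sqrt (n * Real.log n)) ∧
      exceptions c n ⊆ pisotSalem c n ∧
      ((exceptions c n).ncard : ℝ) ≤ Real.exp (C * Real.sqrt (n * Real.log n)) := by
  obtain ⟨C, hC⟩ := Pool.Agent.SalemCount.main c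
  refine ⟨C, fun n hn => ?_⟩
  have hsub : exceptions c n ⊆ pisotSalem c n := by
    rintro β ⟨⟨h1, hint, hper⟩, hc, hdeg, hinf⟩
    exact ⟨⟨h1, hint, fun z hz hzβ =>
      Pool.Agent.MP1f45fc.conj_le_one hint hper hinf z hz hzβ⟩, hc, hdeg⟩
  have hmain := hC n hn (pisotSalem c n) fun β hβ => by
    obtain ⟨⟨h1, hint, hconj⟩, hc, hdeg⟩ := hβ
    exact ⟨h1, hc, hint, hdeg, hconj⟩
  refine ⟨hmain.1, hmain.2, hsub, le_trans ?_ hmain.2⟩
  exact_mod_cast Set.ncard_le_ncard hsub hmain.1

end Pool.Agent.Results.MP_1f45fc_nt.SparseExceptions
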